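import Mathlib
import Pool.Agent.Lib.MP_4fb322_lc_q.Base

set_option autoImplicit false

/-!
# END GAME: definitions
-/

namespace Pool.Agent.Lib.MP_4fb322_lc_e

open Set Filter Pool.Agent.Lib.MP_4fb322_lc_q

variable {I : Type} {ar : I → ℕ} (Y : SYS ar)

/-- the nonprincipal ultrafilter -/
noncomputable abbrev UF : Ultrafilter ℕ := Filter.hyperfilter ℕ

/-- `Le` with a given move -/
def LeW (Q : (l : Y.L) → Set (Mv Y.sz l)) (K : Set Y.P) (y z : Tm Y.L)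
    (e : (l : Y.L) → Mv Y.sz l) : Prop :=
  (∀ l ∈ y.lv, e l ∈ Q l) ∧ (∀ l ∈ y.lv, (e l).1 ∈ z.lv) ∧
    Set.InjOn (mvPt e) (pts Y.sz y K) ∧ Y.Agree K y z e

/-- fine families of sets of moves -/
def Fine (Q : (l : Y.L) → Set (Mv Y.sz l)) : Prop := ∀ l, Q l ∈ Y.FF l

/-- open families of sets of moves -/
def OpnF (Q : (l : Y.L) → Set (Mv Y.sz l)) : Prop := ∀ l, Y.Opn l (Q l)

/-- composition of families of moves: first `e`, then `e'` -/
def cmp (e e' : (l : Y.L) → Mv Y.sz l) : (l : Y.L) → Mv Y.sz l :=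
  fun l => ⟨(e' (e l).1).1, (e' (e l).1).2 ∘ (e l).2⟩

/-- full families of terms with pins -/
def Full {ι : Type} (W : Ultrafilter ι) (N : ι → Tm Y.L) (pN : ι → Finset Y.P) : Prop :=
  (∀ᶠ i in (W : Filter ι), (N i).lv.Nodup) ∧
    (∃ᶠ j in (atTop : Filter ℕ), ∀ᶠ i in (W : Filter ι), Y.Emb (Y.t j) (Y.pn j) (N i) (pN i))

/-- the term `y` is hosted by most main terms -/
def II (y : Tm Y.L) : Prop :=
  ∀ (K : Finset Y.P) (Q : (l : Y.L) → Set (Mv Y.sz l)), Fine Y Q →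
    ∀ᶠ j in (UF : Filter ℕ), Y.Le Q (K : Set Y.P) y (Y.t j)

/-- the label `l` has a move in `Q` to the label `m` -/
def PLe (Q : (l : Y.L) → Set (Mv Y.sz l)) (l m : Y.L) : Prop :=
  ∃ g : Fin (Y.sz l) → Fin (Y.sz m), (⟨m, g⟩ : Mv Y.sz l) ∈ Q l

/-- `em m i` is the special label number `i` of `t m`: the label `d` is hosted at the place `i` -/
def Loc (em : ℕ → ℕ → Y.L) (d : Y.L) (i : ℕ) : Prop :=
  ∀ Q : (l : Y.L) → Set (Mv Y.sz l), Fine Y Q → ∀ᶠ m in (UF : Filter ℕ), PLe Y Q d (em m i)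

/-- the place `i` is good: its own labels are hosted there -/
def Good (em : ℕ → ℕ → Y.L) (i : ℕ) : Prop := ∀ᶠ n in (UF : Filter ℕ), Loc Y em (em n i) i

end Pool.Agent.Lib.MP_4fb322_lc_e
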