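import Mathlib
import Pool.Agent.Lib.MP_4fb322_lc_e.EDefs

set_option autoImplicit false

/-!
# END GAME, row A1 (helper29): basic lemmas
-/

namespace Pool.Agent.Lib.MP_4fb322_lc_e

open Set Filter Pool.Agent.Lib.MP_4fb322_lc_q

variable {I : Type} {ar : I → ℕ} {Y : SYS ar}

private theorem mvPt_cmp (e e' : (l : Y.L) → Mv Y.sz l) (x : Y.P ⊕ Pt Y.sz) :
    mvPt (cmp Y e e') x = mvPt e' (mvPt e x) := by
  cases x with
  | inl p => rfl
  | inr q => rfl

private theorem mvPt_mem {e : (l : Y.L) → Mv Y.sz l} {y z : Tm Y.L} {K : Set Y.P}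
    (h : ∀ l ∈ y.lv, (e l).1 ∈ z.lv) {x : Y.P ⊕ Pt Y.sz} (hx : x ∈ pts Y.sz y K) :
    mvPt e x ∈ pts Y.sz z K := by
  rcases hx with ⟨p, hp, rfl⟩ | ⟨q, hq, rfl⟩
  · exact Or.inl ⟨p, hp, rfl⟩
  · exact Or.inr ⟨_, h _ hq, rfl⟩

private theorem pts_mono {y z : Tm Y.L} {K K' : Set Y.P}
    (h : ∀ l ∈ y.lv, l ∈ z.lv) (hK : K ⊆ K') : pts Y.sz y K ⊆ pts Y.sz z K' := by
  rintro x (⟨p, hp, rfl⟩ | ⟨q, hq, rfl⟩)
  · exact Or.inl ⟨p, hK hp, rfl⟩
  · exact Or.inr ⟨q, h _ hq, rfl⟩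

theorem LeW.le {Q : (l : Y.L) → Set (Mv Y.sz l)} {K : Set Y.P} {y z : Tm Y.L}
    {e : (l : Y.L) → Mv Y.sz l} (h : LeW Y Q K y z e) : Y.Le Q K y z := ⟨e, h⟩

theorem LeW.mono {Q Q' : (l : Y.L) → Set (Mv Y.sz l)} {K K' : Set Y.P} {y z : Tm Y.L}
    {e : (l : Y.L) → Mv Y.sz l} (h : LeW Y Q K y z e) (hQ : ∀ l, Q l ⊆ Q' l) (hK : K' ⊆ K) :
    LeW Y Q' K' y z e :=
  ⟨fun l hl => hQ l (h.1 l hl), h.2.1, h.2.2.1.mono (pts_mono (fun _ h => h) hK),
    fun i a ha => h.2.2.2 i a fun j => pts_mono (fun _ h => h) hK (ha j)⟩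

theorem Fine.inter {Q Q' : (l : Y.L) → Set (Mv Y.sz l)} (h : Fine Y Q) (h' : Fine Y Q') :
    Fine Y (fun l => Q l ∩ Q' l) := fun l => inter_mem (h l) (h' l)

theorem Fine.iInter {α : Type} (s : Set α) (hs : s.Finite) {Q : α → (l : Y.L) → Set (Mv Y.sz l)}
    (h : ∀ a ∈ s, Fine Y (Q a)) : Fine Y (fun l => ⋂ a ∈ s, Q a l) :=
  fun l => (Filter.biInter_mem hs).2 fun a ha => h a ha l

/-- fine families contain open ones -/
theorem open_basis (hY : Y.Ax) {Q : (l : Y.L) → Set (Mv Y.sz l)} (h : Fine Y Q) :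
    ∃ Q0 : (l : Y.L) → Set (Mv Y.sz l), (∀ l, Q0 l ⊆ Q l) ∧ OpnF Y Q0 := by
  choose Q0 h1 h2 using fun l => hY.base l (Q l) (h l)
  exact ⟨Q0, h1, h2⟩

theorem OpnF.fine {Q : (l : Y.L) → Set (Mv Y.sz l)} (h : OpnF Y Q) : Fine Y Q :=
  fun l => (h l).1

/-- composition -/
theorem LeW.comp {Q : (l : Y.L) → Set (Mv Y.sz l)} {K : Set Y.P} {y z : Tm Y.L}
    {e : (l : Y.L) → Mv Y.sz l} (hQ : OpnF Y Q) (h : LeW Y Q K y z e) :
    ∃ Q' : (l : Y.L) → Set (Mv Y.sz l), Fine Y Q' ∧ ∀ (K' : Set Y.P) (z' : Tm Y.L)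
      (e' : (l : Y.L) → Mv Y.sz l), K ⊆ K' → LeW Y Q' K' z z' e' → LeW Y Q K y z' (cmp Y e e') := by
  refine ⟨fun m => {r | ∀ l ∈ y.lv, ∀ g : Fin (Y.sz l) → Fin (Y.sz m), e l = ⟨m, g⟩ →
    (⟨r.1, r.2 ∘ g⟩ : Mv Y.sz l) ∈ Q l}, ?_, ?_⟩
  · intro m
    have hset : {r : Mv Y.sz m | ∀ l ∈ y.lv, ∀ g : Fin (Y.sz l) → Fin (Y.sz m), e l = ⟨m, g⟩ →
        (⟨r.1, r.2 ∘ g⟩ : Mv Y.sz l) ∈ Q l} = ⋂ l ∈ {l | l ∈ y.lv}, {r : Mv Y.sz m |
        ∀ g : Fin (Y.sz l) → Fin (Y.sz m), e l = ⟨m, g⟩ → (⟨r.1, r.2 ∘ g⟩ : Mv Y.sz l) ∈ Q l} := by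
      ext r
      simp
    beta_reduce
    rw [hset]
    refine (Filter.biInter_mem (List.finite_toSet y.lv)).2 ?_
    intro l hl
    by_cases hg : ∃ g : Fin (Y.sz l) → Fin (Y.sz m), e l = ⟨m, g⟩
    · obtain ⟨g, hg⟩ := hg
      have h1 := (hQ l).2 (⟨m, g⟩ : Mv Y.sz l) (hg ▸ h.1 l hl)
      filter_upwards [h1] with r hr g' hg'
      have : g' = g := by
        rw [hg] at hg'
        simpa using hg'.symm
      rw [this]
      exact hr
    · filter_upwards with r g hg'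
      exact absurd ⟨g, hg'⟩ hg
  · intro K' z' e' hK h'
    refine ⟨fun l hl => h'.1 _ (h.2.1 l hl) l hl (e l).2 rfl, fun l hl => h'.2.1 _ (h.2.1 l hl),
      ?_, ?_⟩
    · intro x hx x' hx' hxx
      rw [mvPt_cmp, mvPt_cmp] at hxx
      exact h.2.2.1 hx hx' (h'.2.2.1 (pts_mono (fun _ h => h) hK (mvPt_mem h.2.1 hx))
        (pts_mono (fun _ h => h) hK (mvPt_mem h.2.1 hx')) hxx)
    · intro i a ha
      rw [h.2.2.2 i a ha, h'.2.2.2 i _ fun j => pts_mono (fun _ h => h) hK (mvPt_mem h.2.1 (ha j))]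
      simp only [mvPt_cmp]

private theorem mvPt_congr {e e' : (l : Y.L) → Mv Y.sz l} {y : Tm Y.L} {K : Set Y.P}
    (h' : ∀ l ∈ y.lv, e' l = e l) {x : Y.P ⊕ Pt Y.sz} (hx : x ∈ pts Y.sz y K) :
    mvPt e' x = mvPt e x := by
  rcases hx with ⟨p, hp, rfl⟩ | ⟨q, hq, rfl⟩
  · rfl
  · simp only [mvPt]
    rw [h' _ hq]

/-- only the moves of the leaves matter -/
theorem LeW.congr {Q : (l : Y.L) → Set (Mv Y.sz l)} {K : Set Y.P} {y z : Tm Y.L}
    {e e' : (l : Y.L) → Mv Y.sz l} (h : LeW Y Q K y z e) (h' : ∀ l ∈ y.lv, e' l = e l) :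
    LeW Y Q K y z e' := by
  refine ⟨fun l hl => h' l hl ▸ h.1 l hl, fun l hl => h' l hl ▸ h.2.1 l hl, ?_, ?_⟩
  · intro x hx x' hx' hxx
    rw [mvPt_congr h' hx, mvPt_congr h' hx'] at hxx
    exact h.2.2.1 hx hx' hxx
  · intro i a ha
    rw [h.2.2.2 i a ha]
    have : (fun j => mvPt e' (a j)) = fun j => mvPt e (a j) := funext fun j => mvPt_congr h' (ha j)
    rw [this]

theorem sub_lv {L : Type} {s t : Tm L} (h : Sub s t) : s.lv.Sublist t.lv := by
  induction h with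
  | leaf a => exact List.Sublist.refl _
  | left _ ih => exact ih.trans (List.sublist_append_left _ _)
  | right _ ih => exact ih.trans (List.sublist_append_right _ _)
  | node _ _ ih1 ih2 => exact ih1.append ih2

theorem sub_refl {L : Type} (t : Tm L) : Sub t t := by
  induction t with
  | leaf a => exact .leaf a
  | node s t hs ht => exact .node hs ht

theorem sub_trans {L : Type} {r s t : Tm L} (h : Sub r s) (h' : Sub s t) : Sub r t := by
  induction h' generalizing r with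
  | leaf a => exact h
  | left _ ih => exact .left (ih h)
  | right _ ih => exact .right (ih h)
  | node _ _ ih1 ih2 =>
    cases h with
    | left h => exact .left (ih1 h)
    | right h => exact .right (ih2 h)
    | node h1 h2 => exact .node (ih1 h1) (ih2 h2)

/-- from an induced subterm to the term -/
theorem LeW.up (hY : Y.Ax) {Q : (l : Y.L) → Set (Mv Y.sz l)} {K : Set Y.P} {y z z' : Tm Y.L}
    {e : (l : Y.L) → Mv Y.sz l} (h : LeW Y Q K y z' e) (hz : z.lv.Nodup) (hs : Sub z' z) :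
    LeW Y Q K y z e := by
  refine ⟨h.1, fun l hl => (sub_lv hs).subset (h.2.1 l hl), h.2.2.1, ?_⟩
  intro i a ha
  rw [h.2.2.2 i a ha]
  exact hY.res z' z hs hz i _ fun j =>
    pts_mono (fun _ h => h) (subset_univ K) (mvPt_mem h.2.1 (ha j))

/-- from the term to an induced subterm which contains the image -/
theorem LeW.down (hY : Y.Ax) {Q : (l : Y.L) → Set (Mv Y.sz l)} {K : Set Y.P} {y z z' : Tm Y.L}
    {e : (l : Y.L) → Mv Y.sz l} (h : LeW Y Q K y z e) (hz : z.lv.Nodup) (hs : Sub z' z)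
    (hl : ∀ l ∈ y.lv, (e l).1 ∈ z'.lv) : LeW Y Q K y z' e := by
  refine ⟨h.1, hl, h.2.2.1, ?_⟩
  intro i a ha
  rw [h.2.2.2 i a ha]
  exact (hY.res z' z hs hz i _ fun j =>
    pts_mono (fun _ h => h) (subset_univ K) (mvPt_mem hl (ha j))).symm

/-- restriction of the source -/
theorem LeW.sub (hY : Y.Ax) {Q : (l : Y.L) → Set (Mv Y.sz l)} {K : Set Y.P} {y y' z : Tm Y.L}
    {e : (l : Y.L) → Mv Y.sz l} (h : LeW Y Q K y z e) (hy : y.lv.Nodup) (hs : Sub y' y) :
    LeW Y Q K y' z e := by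
  have hsub : ∀ l ∈ y'.lv, l ∈ y.lv := fun l hl => (sub_lv hs).subset hl
  refine ⟨fun l hl => h.1 l (hsub l hl), fun l hl => h.2.1 l (hsub l hl),
    h.2.2.1.mono (pts_mono hsub le_rfl), ?_⟩
  intro i a ha
  rw [← h.2.2.2 i a fun j => pts_mono hsub le_rfl (ha j)]
  exact hY.res y' y hs hy i a fun j => pts_mono (fun _ h => h) (subset_univ K) (ha j)

/-- two terms with the same labels, whose structures are equal on the common points (here: because the same
move embeds both into the same term) -/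
theorem LeW.swap {Q Q' Q'' : (l : Y.L) → Set (Mv Y.sz l)} {K : Set Y.P} {y y' z z' : Tm Y.L}
    {e e' : (l : Y.L) → Mv Y.sz l} (hl : ∀ l, l ∈ y.lv ↔ l ∈ y'.lv) (h : LeW Y Q K y z e)
    (h' : LeW Y Q' K y' z e) (h'' : LeW Y Q'' K y' z' e') : LeW Y Q'' K y z' e' := by
  have hp : pts Y.sz y K ⊆ pts Y.sz y' K := pts_mono (fun l hm => (hl l).1 hm) le_rfl
  refine ⟨fun l hm => h''.1 l ((hl l).1 hm), fun l hm => h''.2.1 l ((hl l).1 hm),
    h''.2.2.1.mono hp, ?_⟩
  intro i a ha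
  rw [h.2.2.2 i a ha, ← h'.2.2.2 i a fun j => hp (ha j), h''.2.2.2 i a fun j => hp (ha j)]

theorem lv_map {L M : Type} (f : L → M) (t : Tm L) : (t.map f).lv = t.lv.map f := by
  induction t with
  | leaf a => rfl
  | node s t hs ht => simp [Tm.map, Tm.lv, hs, ht]

theorem lv_ne_nil {L : Type} (t : Tm L) : t.lv ≠ [] := by
  induction t with
  | leaf a => simp [Tm.lv]
  | node s t hs ht => simp [Tm.lv, hs]

private theorem exists_restrict {L : Type} (t : Tm L) (H : Set L) (h : ∃ l ∈ t.lv, l ∈ H) :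
    ∃ s, Sub s t ∧ ∀ l, l ∈ s.lv ↔ l ∈ t.lv ∧ l ∈ H := by
  induction t with
  | leaf a =>
    obtain ⟨l, hl, hH⟩ := h
    rw [Tm.lv, List.mem_singleton] at hl
    subst hl
    refine ⟨.leaf l, .leaf l, fun l' => ?_⟩
    rw [Tm.lv, List.mem_singleton]
    exact ⟨fun h => ⟨h, h ▸ hH⟩, fun h => h.1⟩
  | node s t hs ht =>
    by_cases h1 : ∃ l ∈ s.lv, l ∈ H
    · obtain ⟨s', hs', hs''⟩ := hs h1
      by_cases h2 : ∃ l ∈ t.lv, l ∈ H
      · obtain ⟨t', ht', ht''⟩ := ht h2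
        refine ⟨.node s' t', .node hs' ht', fun l => ?_⟩
        rw [Tm.lv, Tm.lv, List.mem_append, List.mem_append, hs'', ht'']
        tauto
      · refine ⟨s', .left hs', fun l => ?_⟩
        rw [Tm.lv, List.mem_append, hs'']
        constructor
        · tauto
        · rintro ⟨h | h, h3⟩
          · exact ⟨h, h3⟩
          · exact absurd ⟨l, h, h3⟩ h2
    · have h2 : ∃ l ∈ t.lv, l ∈ H := by
        obtain ⟨l, hl, hH⟩ := h
        rw [Tm.lv, List.mem_append] at hl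
        rcases hl with hl | hl
        · exact absurd ⟨l, hl, hH⟩ h1
        · exact ⟨l, hl, hH⟩
      obtain ⟨t', ht', ht''⟩ := ht h2
      refine ⟨t', .right ht', fun l => ?_⟩
      rw [Tm.lv, List.mem_append, ht'']
      constructor
      · tauto
      · rintro ⟨h | h, h3⟩
        · exact absurd ⟨l, h, h3⟩ h1
        · exact ⟨h, h3⟩

/-- the term induced on a set of leaves -/
theorem exists_induced {L : Type} (z : Tm L) (_hz : z.lv.Nodup) (S : Set L) (hS : S.Nonempty)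
    (hSz : ∀ l ∈ S, l ∈ z.lv) : ∃ z', Sub z' z ∧ ∀ l, l ∈ z'.lv ↔ l ∈ S := by
  obtain ⟨l, hl⟩ := hS
  obtain ⟨z', h1, h2⟩ := exists_restrict z S ⟨l, hSz l hl, hl⟩
  exact ⟨z', h1, fun l => (h2 l).trans ⟨fun h => h.2, fun h => ⟨hSz l h, h⟩⟩⟩

/-- induced terms with the same labels are equal -/
theorem induced_unique {L : Type} {z s s' : Tm L} (hz : z.lv.Nodup) (h : Sub s z) (h' : Sub s' z)
    (hl : ∀ l, l ∈ s.lv ↔ l ∈ s'.lv) : s = s' := by
  induction z generalizing s s' with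
  | leaf a =>
    cases h
    cases h'
    rfl
  | node t t' iht iht' =>
    rw [Tm.lv, List.nodup_append] at hz
    obtain ⟨hz1, hz2, hz3⟩ := hz
    have hdis : ∀ l, l ∈ t.lv → l ∈ t'.lv → False := fun l h1 h2 => hz3 l h1 l h2 rfl
    have hex : ∀ u : Tm L, ∃ l, l ∈ u.lv := fun u => List.exists_mem_of_ne_nil _ (lv_ne_nil u)
    cases h with
    | left h =>
      cases h' with
      | left h' => exact iht hz1 h h' hl
      | right h' =>
        obtain ⟨l, hl1⟩ := hex s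
        exact (hdis l ((sub_lv h).subset hl1) ((sub_lv h').subset ((hl l).1 hl1))).elim
      | node h1' h2' =>
        rename_i u u'
        obtain ⟨l, hl1⟩ := hex u'
        have : l ∈ s.lv := (hl l).2 (by rw [Tm.lv, List.mem_append]; exact Or.inr hl1)
        exact (hdis l ((sub_lv h).subset this) ((sub_lv h2').subset hl1)).elim
    | right h =>
      cases h' with
      | left h' =>
        obtain ⟨l, hl1⟩ := hex s
        exact (hdis l ((sub_lv h').subset ((hl l).1 hl1)) ((sub_lv h).subset hl1)).elim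
      | right h' => exact iht' hz2 h h' hl
      | node h1' h2' =>
        rename_i u u'
        obtain ⟨l, hl1⟩ := hex u
        have : l ∈ s.lv := (hl l).2 (by rw [Tm.lv, List.mem_append]; exact Or.inl hl1)
        exact (hdis l ((sub_lv h1').subset hl1) ((sub_lv h).subset this)).elim
    | node h1 h2 =>
      rename_i u u'
      cases h' with
      | left h' =>
        obtain ⟨l, hl1⟩ := hex u'
        have : l ∈ s'.lv := (hl l).1 (by rw [Tm.lv, List.mem_append]; exact Or.inr hl1)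
        exact (hdis l ((sub_lv h').subset this) ((sub_lv h2).subset hl1)).elim
      | right h' =>
        obtain ⟨l, hl1⟩ := hex u
        have : l ∈ s'.lv := (hl l).1 (by rw [Tm.lv, List.mem_append]; exact Or.inl hl1)
        exact (hdis l ((sub_lv h1).subset hl1) ((sub_lv h').subset this)).elim
      | node h1' h2' =>
        rename_i w w'
        have hl' : ∀ l, (l ∈ u.lv ∨ l ∈ u'.lv) ↔ (l ∈ w.lv ∨ l ∈ w'.lv) := by
          intro l
          have := hl l
          rwa [Tm.lv, Tm.lv, List.mem_append, List.mem_append] at this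
        rw [iht hz1 h1 h1' fun l => ?_, iht' hz2 h2 h2' fun l => ?_]
        · constructor
          · intro hm
            rcases (hl' l).1 (Or.inr hm) with h | h
            · exact (hdis l ((sub_lv h1').subset h) ((sub_lv h2).subset hm)).elim
            · exact h
          · intro hm
            rcases (hl' l).2 (Or.inr hm) with h | h
            · exact (hdis l ((sub_lv h1).subset h) ((sub_lv h2').subset hm)).elim
            · exact h
        · constructor
          · intro hm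
            rcases (hl' l).1 (Or.inl hm) with h | h
            · exact h
            · exact (hdis l ((sub_lv h1).subset hm) ((sub_lv h2').subset h)).elim
          · intro hm
            rcases (hl' l).2 (Or.inl hm) with h | h
            · exact h
            · exact (hdis l ((sub_lv h1').subset hm) ((sub_lv h2).subset h)).elim

private theorem finite_length {L : Type} (S : Set L) (hS : S.Finite) (n : ℕ) :
    {t : Tm L | t.lv.length ≤ n ∧ ∀ l ∈ t.lv, l ∈ S}.Finite := by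
  induction n with
  | zero =>
    refine Set.finite_empty.subset ?_
    rintro t ⟨h, -⟩
    exact absurd (List.length_eq_zero_iff.1 (Nat.le_zero.1 h)) (lv_ne_nil t)
  | succ n ih =>
    refine ((hS.image Tm.leaf).union (ih.image2 Tm.node ih)).subset ?_
    rintro t ⟨h, h'⟩
    cases t with
    | leaf a => exact Or.inl ⟨a, h' a (by simp [Tm.lv]), rfl⟩
    | node s t =>
      refine Or.inr ⟨s, ⟨?_, fun l hl => h' l (by simp [Tm.lv, hl])⟩, t,
        ⟨?_, fun l hl => h' l (by simp [Tm.lv, hl])⟩, rfl⟩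
      · have := List.length_pos_iff.2 (lv_ne_nil t)
        simp only [Tm.lv, List.length_append] at h
        omega
      · have := List.length_pos_iff.2 (lv_ne_nil s)
        simp only [Tm.lv, List.length_append] at h
        omega

theorem finite_trees {L : Type} (S : Set L) (hS : S.Finite) :
    {t : Tm L | t.lv.Nodup ∧ ∀ d ∈ t.lv, d ∈ S}.Finite := by
  classical
  refine (finite_length S hS hS.toFinset.card).subset ?_
  rintro t ⟨h1, h2⟩
  refine ⟨?_, h2⟩
  rw [← List.toFinset_card_of_nodup h1]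
  exact Finset.card_le_card fun d hd => hS.mem_toFinset.2 (h2 d (List.mem_toFinset.1 hd))

private theorem lc_le' {y y' : Tm Y.L} (hl : ∀ l, l ∈ y'.lv ↔ l ∈ y.lv) {K : Set Y.P}
    {Q1 : (l : Y.L) → Set (Mv Y.sz l)} {e : (l : Y.L) → Mv Y.sz l}
    (hinj : Set.InjOn (fun l => (e l).1) {l | l ∈ y.lv})
    (hinj' : ∀ l ∈ y.lv, Function.Injective (e l).2) (hQ : ∀ l ∈ y.lv, e l ∈ Q1 l)
    (hag : Y.Agree K y' (y'.map fun l => (e l).1) e) :
    LeW Y Q1 K y' (y'.map fun l => (e l).1) e := by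
  refine ⟨fun l h => hQ l ((hl l).1 h), fun l hl => ?_, ?_, hag⟩
  · rw [lv_map]
    exact List.mem_map.2 ⟨l, hl, rfl⟩
  · rintro x (⟨p, hp, rfl⟩ | ⟨⟨l, c⟩, hq, rfl⟩) x' (⟨p', hp', rfl⟩ | ⟨⟨l', c'⟩, hq', rfl⟩) hxx
    · exact hxx
    · exact absurd hxx (by simp [mvPt])
    · exact absurd hxx (by simp [mvPt])
    · have h1 : (⟨(e l).1, (e l).2 c⟩ : Pt Y.sz) = ⟨(e l').1, (e l').2 c'⟩ := Sum.inr_injective hxx
      have h2 : l = l' := hinj ((hl l).1 hq) ((hl l').1 hq') (congrArg Sigma.fst h1)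
      subst h2
      have h3 : (e l).2 c = (e l).2 c' := by simpa using h1
      rw [hinj' l ((hl l).1 hq) h3]

/-- the same for all terms with the same labels at once -/
theorem lc_le_all (hY : Y.Ax) (y : Tm Y.L) (_hy : y.lv.Nodup) (K : Finset Y.P) :
    ∃ Q : (l : Y.L) → Set (Mv Y.sz l), Fine Y Q ∧
      ∀ y' : Tm Y.L, y'.lv.Nodup → (∀ l, l ∈ y'.lv ↔ l ∈ y.lv) →
      ∀ (Q1 : (l : Y.L) → Set (Mv Y.sz l)) (e : (l : Y.L) → Mv Y.sz l),
        Set.InjOn (fun l => (e l).1) {l | l ∈ y.lv} → (∀ l ∈ y.lv, e l ∈ Q l) →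
        (∀ l ∈ y.lv, e l ∈ Q1 l) → LeW Y Q1 K y' (y'.map fun l => (e l).1) e := by
  classical
  have hfin : {t : Tm Y.L | t.lv.Nodup ∧ ∀ d ∈ t.lv, d ∈ {l | l ∈ y.lv}}.Finite :=
    finite_trees _ (List.finite_toSet _)
  have hex : ∀ t : Tm Y.L, ∃ Q : (l : Y.L) → Set (Mv Y.sz l), Fine Y Q ∧ (t.lv.Nodup →
      ∀ e : (l : Y.L) → Mv Y.sz l, Set.InjOn (fun l => (e l).1) {l | l ∈ t.lv} →
        (∀ l ∈ t.lv, e l ∈ Q l) → Y.Agree (K : Set Y.P) t (t.map fun l => (e l).1) e) := by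
    intro t
    by_cases ht : t.lv.Nodup
    · obtain ⟨Q, h1, h2⟩ := hY.lc t ht K
      exact ⟨Q, h1, fun _ => h2⟩
    · exact ⟨fun _ => univ, fun _ => univ_mem, fun h => absurd h ht⟩
  choose Q hQ hQ' using hex
  refine ⟨fun l => (⋂ t ∈ {t : Tm Y.L | t.lv.Nodup ∧ ∀ d ∈ t.lv, d ∈ {l | l ∈ y.lv}}, Q t l) ∩
    {p | Function.Injective p.2}, ?_, ?_⟩
  · exact (Fine.iInter _ hfin fun t _ => hQ t).inter fun l => hY.inj l
  · intro y' hy' hl Q1 e hinj hm hm1
    refine lc_le' hl hinj (fun l hl => (hm l hl).2) hm1 ?_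
    refine hQ' y' hy' e ?_ ?_
    · intro a ha b hb hab
      exact hinj ((hl a).1 ha) ((hl b).1 hb) hab
    · intro l hl'
      have h1 := (hm l ((hl l).1 hl')).1
      exact Set.mem_iInter₂.1 h1 y' ⟨hy', fun d hd => (hl d).1 hd⟩

/-- local constancy as an embedding -/
theorem lc_le (hY : Y.Ax) (y : Tm Y.L) (hy : y.lv.Nodup) (K : Finset Y.P) :
    ∃ Q : (l : Y.L) → Set (Mv Y.sz l), Fine Y Q ∧
      ∀ (Q1 : (l : Y.L) → Set (Mv Y.sz l)) (e : (l : Y.L) → Mv Y.sz l),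
        Set.InjOn (fun l => (e l).1) {l | l ∈ y.lv} → (∀ l ∈ y.lv, e l ∈ Q l) →
        (∀ l ∈ y.lv, e l ∈ Q1 l) → LeW Y Q1 K y (y.map fun l => (e l).1) e := by
  obtain ⟨Q, h1, h2⟩ := lc_le_all hY y hy K
  exact ⟨Q, h1, fun Q1 e => h2 y hy (fun _ => Iff.rfl) Q1 e⟩

/-- recognition in a full family -/
theorem full_rec (hY : Y.Ax) {ι : Type} {W : Ultrafilter ι} {N : ι → Tm Y.L} {pN : ι → Finset Y.P}
    (h : Full Y W N pN) (y : Tm Y.L) (hy : y.lv.Nodup) (K : Finset Y.P)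
    (Q : (l : Y.L) → Set (Mv Y.sz l)) (hQ : Fine Y Q) :
    ∀ᶠ i in (W : Filter ι), (N i).lv.Nodup ∧ K ⊆ pN i ∧ ∃ e, LeW Y Q (K : Set Y.P) y (N i) e := by
  filter_upwards [h.1, hY.recg ι W N pN h.1 h.2 y hy K Q hQ] with i h1 h2
  exact ⟨h1, h2.1, h2.2⟩

/-- an embedding by moves is an embedding -/
theorem LeW.emb {Q : (l : Y.L) → Set (Mv Y.sz l)} {K : Set Y.P} {y z : Tm Y.L}
    {e : (l : Y.L) → Mv Y.sz l} (h : LeW Y Q K y z e) (K' : Set Y.P) (hK : K ⊆ K') :
    Y.Emb y K z K' :=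
  ⟨mvPt e, fun _ hx => pts_mono (fun _ h => h) hK (mvPt_mem h.2.1 hx), h.2.2.2⟩

/-! ### Main terms in combs -/

private theorem sub_comb {L : Type} (t : Tm L) (l : List (Tm L)) :
    ∀ s ∈ t :: l, Sub s (Tm.comb t l) := by
  induction l generalizing t with
  | nil =>
    intro s hs
    rw [List.mem_singleton] at hs
    subst hs
    exact sub_refl _
  | cons u l ih =>
    intro s hs
    rcases List.mem_cons.1 hs with rfl | hs
    · exact Sub.left (sub_refl _)
    · exact Sub.right (ih u s hs)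

private theorem lv_comb {L : Type} (t : Tm L) (l : List (Tm L)) :
    (Tm.comb t l).lv = t.lv ++ l.flatMap Tm.lv := by
  induction l generalizing t with
  | nil => simp [Tm.comb]
  | cons s l ih => simp [Tm.comb, Tm.lv, ih]

/-- an induced term embeds -/
theorem emb_of_sub (hY : Y.Ax) {s N : Tm Y.L} (hs : Sub s N) (hN : N.lv.Nodup) {K K' : Set Y.P}
    (hK : K ⊆ K') : Y.Emb s K N K' := by
  refine ⟨fun x => x, fun x hx => pts_mono (fun _ h => (sub_lv hs).subset h) hK hx,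
    fun i a ha => ?_⟩
  exact hY.res s N hs hN i a fun j => pts_mono (fun _ h => h) (subset_univ K) (ha j)

/-- the comb of a list, with a default value -/
def cmbL {L : Type} (d : Tm L) : List (Tm L) → Tm L
  | [] => d
  | s :: l => Tm.comb s l

theorem lv_cmbL {L : Type} (d : Tm L) {l : List (Tm L)} (h : l ≠ []) :
    (cmbL d l).lv = l.flatMap Tm.lv := by
  cases l with
  | nil => exact absurd rfl h
  | cons s l => simp [cmbL, lv_comb]

theorem sub_cmbL {L : Type} (d : Tm L) (l : List (Tm L)) {s : Tm L} (hs : s ∈ l) :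
    Sub s (cmbL d l) := by
  cases l with
  | nil => exact absurd hs (List.not_mem_nil)
  | cons t l => exact sub_comb t l s hs

/-- the comb of the main terms in `J` has no repeated label -/
theorem nodup_cmbL (hY : Y.Ax) {J : List ℕ} (hJ : J.Nodup) : (cmbL (Y.t 0) (J.map Y.t)).lv.Nodup := by
  by_cases h : J = []
  · subst h
    exact hY.nodup 0
  · rw [lv_cmbL _ (by simpa using h), List.nodup_flatMap]
    refine ⟨?_, ?_⟩
    · intro t ht
      obtain ⟨j, _, rfl⟩ := List.mem_map.1 ht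
      exact hY.nodup j
    · rw [List.pairwise_map]
      refine hJ.imp ?_
      intro j k hjk l hl hl'
      exact hY.disj j k hjk l hl hl'

open Classical in
/-- the elements of `Ω` up to `n` -/
noncomputable def upto (Ω : Set ℕ) (n : ℕ) : List ℕ := (List.range (n + 1)).filter (fun j => j ∈ Ω)

theorem mem_upto {Ω : Set ℕ} {n j : ℕ} : j ∈ upto Ω n ↔ j ≤ n ∧ j ∈ Ω := by
  simp [upto]

theorem nodup_upto (Ω : Set ℕ) (n : ℕ) : (upto Ω n).Nodup := (List.nodup_range).filter _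

theorem eventually_ge_UF (j : ℕ) : ∀ᶠ n in (UF : Filter ℕ), j ≤ n := by
  have h : (Set.Iio j)ᶜ ∈ (UF : Filter ℕ) := Set.Finite.compl_mem_hyperfilter (Set.finite_Iio j)
  filter_upwards [h] with n hn using not_lt.1 hn

theorem eventually_ne_UF (j : ℕ) : ∀ᶠ n in (UF : Filter ℕ), n ≠ j := by
  filter_upwards [eventually_ge_UF (j + 1)] with n hn
  omega

theorem frequently_of_UF {Ω : Set ℕ} (h : Ω ∈ (UF : Filter ℕ)) :
    ∃ᶠ j in (atTop : Filter ℕ), j ∈ Ω := by
  have hinf : Ω.Infinite := by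
    intro hf
    have h1 : Ωᶜ ∈ (UF : Filter ℕ) := Set.Finite.compl_mem_hyperfilter hf
    have h2 : (∅ : Set ℕ) ∈ (UF : Filter ℕ) := by
      have := Filter.inter_mem h h1
      rwa [inter_compl_self] at this
    exact (Filter.empty_notMem _) h2
  exact Nat.frequently_atTop_iff_infinite.2 hinf

/-- a label is in at most one main term, so most main terms contain no label of a given term -/
theorem eventually_no_label (hY : Y.Ax) (y : Tm Y.L) :
    ∀ᶠ m in (UF : Filter ℕ), ∀ l ∈ y.lv, l ∉ (Y.t m).lv := by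
  have h1 : ∀ l ∈ {l | l ∈ y.lv}, ∀ᶠ m in (UF : Filter ℕ), l ∉ (Y.t m).lv := by
    intro l _
    by_cases hl : ∃ k, l ∈ (Y.t k).lv
    · obtain ⟨k, hk⟩ := hl
      filter_upwards [eventually_ne_UF k] with m hm
      exact hY.disj k m (Ne.symm hm) l hk
    · exact Filter.Eventually.of_forall fun m hm => hl ⟨m, hm⟩
  have h2 := (Filter.eventually_all_finite (List.finite_toSet y.lv)).2 h1
  exact h2

open Classical in
/-- the comb family is full -/
theorem full_upto (hY : Y.Ax) {Ω : Set ℕ} (hΩ : Ω ∈ (UF : Filter ℕ)) :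
    Full Y UF (fun n => cmbL (Y.t 0) ((upto Ω n).map Y.t))
      (fun n => (upto Ω n).toFinset.biUnion Y.pn) := by
  refine ⟨Filter.Eventually.of_forall fun n => nodup_cmbL hY (nodup_upto Ω n), ?_⟩
  refine (frequently_of_UF hΩ).mono fun j hj => ?_
  filter_upwards [eventually_ge_UF j] with n hn
  have hmem : j ∈ upto Ω n := mem_upto.2 ⟨hn, hj⟩
  refine emb_of_sub hY (sub_cmbL _ _ (List.mem_map.2 ⟨j, hmem, rfl⟩))
    (nodup_cmbL hY (nodup_upto Ω n)) ?_
  intro p hp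
  simp only [Finset.coe_biUnion, Set.mem_iUnion]
  exact ⟨j, by simpa using hmem, hp⟩

private theorem pin1 (hY : Y.Ax) (p : Y.P) : ∀ᶠ m in (UF : Filter ℕ), p ∈ Y.pn m := by
  classical
  by_contra h
  have hΩ : {m | p ∉ Y.pn m} ∈ (UF : Filter ℕ) := Ultrafilter.eventually_not.2 h
  have h1 := full_rec hY (full_upto hY hΩ) (Y.t 0) (hY.nodup 0) {p} (fun _ => univ)
    (fun _ => univ_mem)
  obtain ⟨n, -, hn, -⟩ := h1.exists
  have h2 : p ∈ (upto {m | p ∉ Y.pn m} n).toFinset.biUnion Y.pn := hn (Finset.mem_singleton_self p)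
  rw [Finset.mem_biUnion] at h2
  obtain ⟨j, hj, hpj⟩ := h2
  exact (mem_upto.1 (List.mem_toFinset.1 hj)).2 hpj

/-- the pins: every pin is in most main terms. -/
theorem pins (hY : Y.Ax) (K : Finset Y.P) : ∀ᶠ j in (UF : Filter ℕ), K ⊆ Y.pn j :=
  (Filter.eventually_all_finset K).2 fun p _ => pin1 hY p

end Pool.Agent.Lib.MP_4fb322_lc_e
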