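import Mathlib
import Pool.Agent.Lib.MP_4fb322_lc_e.EndBase

set_option autoImplicit false

namespace Pool.Agent.Lib.MP_4fb322_lc_e

open Set Filter Pool.Agent.Lib.MP_4fb322_lc_q

variable {I : Type} {ar : I → ℕ} {Y : SYS ar}

/-- (J) -/
theorem lemmaJ (hY : Y.Ax) {k : ℕ}
    (hk : ∀ y : Tm Y.L, y.lv.Nodup → y.lv.length < k → II Y y)
    {y N : Tm Y.L} (hy : y.lv.Nodup) (hyk : y.lv.length = k) {K : Finset Y.P}
    {Q : (l : Y.L) → Set (Mv Y.sz l)} (hQ : OpnF Y Q)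
    (hne : ¬ ∀ᶠ j in (UF : Filter ℕ), Y.Le Q (K : Set Y.P) y (Y.t j))
    (hN : N.lv.Nodup) {e : (l : Y.L) → Mv Y.sz l} (h : LeW Y Q (K : Set Y.P) y N e) :
    Set.InjOn (fun l => (e l).1) {l | l ∈ y.lv} ∧
      ∃ z : Tm Y.L, Sub z N ∧ (∀ m, m ∈ z.lv ↔ ∃ l ∈ y.lv, (e l).1 = m) ∧
        z.lv.Nodup ∧ z.lv.length = k ∧ ¬ II Y z ∧ LeW Y Q (K : Set Y.P) y z e := by
  classical
  obtain ⟨l0, hl0⟩ : ∃ l0, l0 ∈ y.lv := List.exists_mem_of_ne_nil _ (lv_ne_nil y)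
  obtain ⟨z, hz, hzl⟩ := exists_induced N hN {m | ∃ l ∈ y.lv, (e l).1 = m}
    ⟨(e l0).1, l0, hl0, rfl⟩ (by
      rintro m ⟨l, hl, rfl⟩
      exact h.2.1 l hl)
  have hzN : z.lv.Nodup := hN.sublist (sub_lv hz)
  have hd : LeW Y Q (K : Set Y.P) y z e :=
    h.down hY hN hz (fun l hl => (hzl _).2 ⟨l, hl, rfl⟩)
  have hII : ¬ II Y z := by
    intro hz2
    obtain ⟨Q', hQ', hc⟩ := LeW.comp hQ hd
    apply hne
    filter_upwards [hz2 K Q' hQ'] with j hj
    obtain ⟨e', he'⟩ := hj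
    exact (hc (K : Set Y.P) (Y.t j) e' subset_rfl he').le
  -- the number of labels
  have hcard : z.lv.toFinset = (y.lv.toFinset).image (fun l => (e l).1) := by
    ext m
    rw [List.mem_toFinset, hzl, Finset.mem_image]
    constructor
    · rintro ⟨l, hl, rfl⟩
      exact ⟨l, List.mem_toFinset.2 hl, rfl⟩
    · rintro ⟨l, hl, rfl⟩
      exact ⟨l, List.mem_toFinset.1 hl, rfl⟩
  have c1 : z.lv.toFinset.card = z.lv.length := List.toFinset_card_of_nodup hzN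
  have c2 : y.lv.toFinset.card = y.lv.length := List.toFinset_card_of_nodup hy
  have c3 : z.lv.length ≤ k := by
    rw [← c1, hcard, ← hyk, ← c2]
    exact Finset.card_image_le
  have c4 : z.lv.length = k := by
    refine le_antisymm c3 ?_
    by_contra hlt
    exact hII (hk z hzN (not_le.1 hlt))
  refine ⟨?_, z, hz, hzl, hzN, c4, hII, hd⟩
  have c5 : ((y.lv.toFinset).image (fun l => (e l).1)).card = (y.lv.toFinset).card := by
    rw [← hcard, c1, c2, c4, hyk]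
  have := Finset.card_image_iff.1 c5
  intro a ha b hb hab
  exact this (by simpa using ha) (by simpa using hb) hab

end Pool.Agent.Lib.MP_4fb322_lc_e
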