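import Mathlib
import Pool.Agent.Lib.MP_4fb322_lc_e.EDefs
import Pool.Agent.Lib.MP_4fb322_lc_e.EndBase

set_option autoImplicit false

/-!
# END GAME, row E3 (F): a term with the smallest number of places
-/

namespace Pool.Agent.Lib.MP_4fb322_lc_e

open Set Filter Pool.Agent.Lib.MP_4fb322_lc_q

variable {I : Type} {ar : I → ℕ} {Y : SYS ar}

/-- the identity moves -/
def idm3 (Y : SYS ar) : (l : Y.L) → Mv Y.sz l := fun l => ⟨l, fun x => x⟩

theorem mvPt_idm3 (x : Y.P ⊕ Pt Y.sz) : mvPt (idm3 Y) x = x := by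
  rcases x with p | q
  · rfl
  · rfl

theorem leW_idm3 (hY : Y.Ax) (Q : (l : Y.L) → Set (Mv Y.sz l)) (hQ : Fine Y Q) (K : Set Y.P)
    (y : Tm Y.L) : LeW Y Q K y y (idm3 Y) := by
  refine ⟨fun l _ => hY.refl l (Q l) (hQ l), fun l hl => hl, ?_, ?_⟩
  · intro a _ b _ hab
    rw [mvPt_idm3, mvPt_idm3] at hab
    exact hab
  · intro i a _
    have : (fun j => mvPt (idm3 Y) (a j)) = a := by
      funext j
      exact mvPt_idm3 (a j)
    rw [this]

open Classical in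
/-- the number of places of a label -/
noncomputable def places (Y : SYS ar) (em : ℕ → ℕ → Y.L) (q : ℕ) (d : Y.L) : ℕ :=
  ((Finset.range q).filter (fun l => Loc Y em d l)).card

theorem places_le {em : ℕ → ℕ → Y.L} {q : ℕ} {d d' : Y.L}
    (h : ∀ l < q, Loc Y em d' l → Loc Y em d l) : places Y em q d' ≤ places Y em q d := by
  classical
  refine Finset.card_le_card fun l hl => ?_
  rw [Finset.mem_filter, Finset.mem_range] at hl ⊢
  exact ⟨hl.1, h l hl.1 hl.2⟩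

theorem places_lt {em : ℕ → ℕ → Y.L} {q : ℕ} {d d' : Y.L}
    (h : ∀ l < q, Loc Y em d' l → Loc Y em d l) {l : ℕ} (hl : l < q) (h1 : Loc Y em d l)
    (h2 : ¬ Loc Y em d' l) : places Y em q d' < places Y em q d := by
  classical
  refine Finset.card_lt_card ⟨fun l hl => ?_, fun hsub => ?_⟩
  · rw [Finset.mem_filter, Finset.mem_range] at hl ⊢
    exact ⟨hl.1, h l hl.1 hl.2⟩
  · have := hsub (Finset.mem_filter.2 ⟨Finset.mem_range.2 hl, h1⟩)
    exact h2 (Finset.mem_filter.1 this).2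

/-- places of a label reached by an open move -/
theorem loc_of_move {em : ℕ → ℕ → Y.L} {R : (l : Y.L) → Set (Mv Y.sz l)} (hR : OpnF Y R)
    {d b : Y.L} {g : Fin (Y.sz d) → Fin (Y.sz b)} (hg : (⟨b, g⟩ : Mv Y.sz d) ∈ R d) {l : ℕ}
    (h : Loc Y em b l) : ∀ᶠ m in (UF : Filter ℕ), PLe Y R d (em m l) := by
  classical
  let A : Set (Mv Y.sz b) := {r | (⟨r.1, r.2 ∘ g⟩ : Mv Y.sz d) ∈ R d}
  have hA : A ∈ Y.FF b := (hR d).2 ⟨b, g⟩ hg
  let Q'' : (l : Y.L) → Set (Mv Y.sz l) := Function.update (fun _ => univ) b A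
  have hQ'' : Fine Y Q'' := by
    intro x
    by_cases hx : x = b
    · subst hx
      simp only [Q'', Function.update_self]
      exact hA
    · simp only [Q'', Function.update_of_ne hx]
      exact univ_mem
  filter_upwards [h Q'' hQ''] with m hm
  obtain ⟨g', hg'⟩ := hm
  simp only [Q'', Function.update_self] at hg'
  exact ⟨g' ∘ g, hg'⟩

theorem PLe.mono {R R' : (l : Y.L) → Set (Mv Y.sz l)} {l m : Y.L} (h : PLe Y R l m)
    (hR : ∀ l, R l ⊆ R' l) : PLe Y R' l m := by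
  obtain ⟨g, hg⟩ := h
  exact ⟨g, hR l hg⟩

/-- **Row E3 (F).** -/
theorem row_F (hY : Y.Ax) (y₀ : Tm Y.L) (hy₀ : y₀.lv.Nodup) (hf₀ : ¬ II Y y₀) (K₀ : Finset Y.P)
    (Q₀ : (l : Y.L) → Set (Mv Y.sz l)) (hQ₀ : OpnF Y Q₀) (q : ℕ) (em : ℕ → ℕ → Y.L)
    (hem : ∀ᶠ m in (UF : Filter ℕ), ∀ l < q, em m l ∈ (Y.t m).lv) :
    ∃ (y : Tm Y.L) (e₀ : (l : Y.L) → Mv Y.sz l), y.lv.Nodup ∧ y.lv.length = y₀.lv.length ∧
      ¬ II Y y ∧ LeW Y Q₀ (K₀ : Set Y.P) y₀ y e₀ ∧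
      Set.InjOn (fun l => (e₀ l).1) {l | l ∈ y₀.lv} ∧
      ∀ d ∈ y.lv, ∀ l < q, Loc Y em d l → Good Y em l := by
  classical
  let P : ℕ → Prop := fun n => ∃ (y : Tm Y.L) (e₀ : (l : Y.L) → Mv Y.sz l), y.lv.Nodup ∧
      y.lv.length = y₀.lv.length ∧ ¬ II Y y ∧ LeW Y Q₀ (K₀ : Set Y.P) y₀ y e₀ ∧
      Set.InjOn (fun l => (e₀ l).1) {l | l ∈ y₀.lv} ∧ (y.lv.map (places Y em q)).sum = n
  have hP : ∃ n, P n := by
    refine ⟨_, y₀, idm3 Y, hy₀, rfl, hf₀, leW_idm3 hY Q₀ hQ₀.fine _ y₀, ?_, rfl⟩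
    intro a _ b _ hab
    exact hab
  obtain ⟨y, e₀, hy, hlen, hf, hle, hinj, hsum⟩ := Nat.find_spec hP
  have hmin : ∀ n, P n → Nat.find hP ≤ n := fun n hn => Nat.find_min' hP hn
  refine ⟨y, e₀, hy, hlen, hf, hle, hinj, ?_⟩
  intro d hd l hl hloc
  by_contra hbad
  -- the failure of `y`
  obtain ⟨K₁, Q₁, hQ₁, hno₁⟩ : ∃ (K₁ : Finset Y.P) (Q₁ : (l : Y.L) → Set (Mv Y.sz l)), OpnF Y Q₁ ∧
      ¬ ∀ᶠ j in (UF : Filter ℕ), Y.Le Q₁ (K₁ : Set Y.P) y (Y.t j) := by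
    have hf' := hf
    unfold II at hf'
    push Not at hf'
    obtain ⟨K₁, Q, hQ, hno⟩ := hf'
    obtain ⟨Q₁, h1, h2⟩ := open_basis hY hQ
    refine ⟨K₁, Q₁, h2, fun hall => ?_⟩
    obtain ⟨j, h3, e, he⟩ := (hno.and hall).exists
    exact h3 (LeW.le (LeW.mono (Q := Q₁) (K := (K₁ : Set Y.P)) he h1 (subset_refl _)))
  -- the refutations of the other places
  have hR : ∀ l' : ℕ, ∃ R : (l : Y.L) → Set (Mv Y.sz l), OpnF Y R ∧
      (¬ Loc Y em d l' → ¬ ∀ᶠ m in (UF : Filter ℕ), PLe Y R d (em m l')) := by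
    intro l'
    by_cases h : Loc Y em d l'
    · exact ⟨Q₀, hQ₀, fun h' => absurd h h'⟩
    · have h' := h
      unfold Loc at h'
      push Not at h'
      obtain ⟨Q, hQ, hno⟩ := h'
      obtain ⟨R, h1, h2⟩ := open_basis hY hQ
      refine ⟨R, h2, fun _ hall => ?_⟩
      obtain ⟨m, h3, hm⟩ := (hno.and hall).exists
      exact h3 (hm.mono h1)
  choose R hRo hRn using hR
  obtain ⟨Qc, hQc, hcomp⟩ := hle.comp hQ₀
  obtain ⟨Ql, hQl, hlc⟩ := lc_le hY y hy (K₀ ∪ K₁)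
  let Qs : (l : Y.L) → Set (Mv Y.sz l) := fun x =>
    Q₁ x ∩ ((⋂ l' ∈ {l' : ℕ | l' < q}, R l' x) ∩ (Qc x ∩ (Ql x ∩ Q₀ x)))
  have hQs : Fine Y Qs := by
    refine hQ₁.fine.inter (Fine.inter ?_ (hQc.inter (hQl.inter hQ₀.fine)))
    exact Fine.iInter _ (Set.finite_lt_nat q) (fun l' _ => (hRo l').fine)
  have hev : ∀ᶠ m in (UF : Filter ℕ), ¬ Loc Y em (em m l) l := by
    have : ¬ ∀ᶠ m in (UF : Filter ℕ), Loc Y em (em m l) l := hbad
    rwa [← Ultrafilter.eventually_not] at this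
  obtain ⟨m, hm1, hm2, hm3, hm4⟩ :=
    ((hloc Qs hQs).and ((eventually_no_label hY y).and (hem.and hev))).exists
  obtain ⟨g, hg⟩ := hm1
  have hnew : em m l ∉ y.lv := fun h => hm2 _ h (hm3 l hl)
  let e' : (l : Y.L) → Mv Y.sz l := Function.update (idm3 Y) d ⟨em m l, g⟩
  have he'd : e' d = ⟨em m l, g⟩ := by simp only [e', Function.update_self]
  have he' : ∀ x, x ≠ d → e' x = idm3 Y x := by
    intro x hx
    simp only [e', Function.update_of_ne hx]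
  have he'1 : ∀ x, x ≠ d → (e' x).1 = x := by
    intro x hx
    rw [he' x hx]
    rfl
  have he'Q : ∀ x ∈ y.lv, e' x ∈ Qs x := by
    intro x _
    by_cases hx : x = d
    · subst hx
      rw [he'd]
      exact hg
    · rw [he' x hx]
      exact hY.refl x (Qs x) (hQs x)
  have he'inj : Set.InjOn (fun x => (e' x).1) {x | x ∈ y.lv} := by
    intro a ha b hb hab
    simp only at hab
    by_cases ha' : a = d
    · by_cases hb' : b = d
      · rw [ha', hb']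
      · rw [ha', he'd, he'1 b hb'] at hab
        have hab' : em m l = b := hab
        exact absurd (hab' ▸ hb) hnew
    · by_cases hb' : b = d
      · rw [hb', he'd, he'1 a ha'] at hab
        have hab' : a = em m l := hab
        exact absurd (hab' ▸ ha) hnew
      · rw [he'1 a ha', he'1 b hb'] at hab
        exact hab
  have hstep : LeW Y Qs ((K₀ ∪ K₁ : Finset Y.P) : Set Y.P) y (y.map fun x => (e' x).1) e' :=
    hlc Qs e' he'inj (fun x hx => (he'Q x hx).2.2.2.1) he'Q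
  set y' : Tm Y.L := y.map fun x => (e' x).1 with hy'
  have hlv' : y'.lv = y.lv.map (fun x => (e' x).1) := lv_map _ _
  have hK₀ : (K₀ : Set Y.P) ⊆ ((K₀ ∪ K₁ : Finset Y.P) : Set Y.P) := by
    rw [Finset.coe_union]
    exact subset_union_left
  have hK₁ : (K₁ : Set Y.P) ⊆ ((K₀ ∪ K₁ : Finset Y.P) : Set Y.P) := by
    rw [Finset.coe_union]
    exact subset_union_right
  have hdec : ∀ l' < q, Loc Y em (em m l) l' → Loc Y em d l' := by
    intro l' hl' hloc'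
    by_contra hno
    refine hRn l' hno (loc_of_move (hRo l') (b := em m l) (g := g) ?_ hloc')
    exact Set.mem_iInter₂.1 hg.2.1 l' hl'
  have hPn : P ((y'.lv.map (places Y em q)).sum) := by
    refine ⟨y', cmp Y e₀ e', ?_, ?_, ?_, ?_, ?_, rfl⟩
    · rw [hlv']
      exact List.Nodup.map_on (fun a ha b hb hab => he'inj ha hb hab) hy
    · rw [hlv', List.length_map, hlen]
    · intro hII
      have h1 : LeW Y Q₁ (K₁ : Set Y.P) y y' e' := hstep.mono (fun _ _ hx => hx.1) hK₁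
      obtain ⟨Q'', hQ'', hcomp''⟩ := h1.comp hQ₁
      apply hno₁
      filter_upwards [hII K₁ Q'' hQ''] with j hj
      obtain ⟨e, he⟩ := hj
      exact (hcomp'' _ _ e (subset_refl _) he).le
    · refine hcomp _ _ _ (subset_refl _) (hstep.mono (fun _ _ hx => hx.2.2.1) hK₀)
    · intro a ha b hb hab
      have h1 : (e₀ a).1 ∈ y.lv := hle.2.1 a ha
      have h2 : (e₀ b).1 ∈ y.lv := hle.2.1 b hb
      exact hinj ha hb (he'inj h1 h2 hab)
  have hlt : (y'.lv.map (places Y em q)).sum < (y.lv.map (places Y em q)).sum := by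
    rw [hlv', List.map_map]
    refine List.sum_lt_sum _ _ (fun x hx => ?_) ⟨d, hd, ?_⟩
    · by_cases hx' : x = d
      · subst hx'
        simp only [Function.comp, he'd]
        exact places_le hdec
      · simp only [Function.comp, he'1 x hx']
        exact le_rfl
    · simp only [Function.comp, he'd]
      exact places_lt hdec hl hloc hm4
  have := hmin _ hPn
  rw [← hsum] at this
  exact absurd hlt (not_lt.2 this)

/-- `row_F`, starting from a failure of `y₀` -/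
theorem exists_min (hY : Y.Ax) (em : ℕ → ℕ → Y.L) (q : ℕ)
    (hem : ∀ᶠ m in (UF : Filter ℕ), ∀ i < q, em m i ∈ (Y.t m).lv) (y₀ : Tm Y.L)
    (hy₀ : y₀.lv.Nodup) (K₀ : Finset Y.P) (Q₀ : (l : Y.L) → Set (Mv Y.sz l)) (hQ₀ : OpnF Y Q₀)
    (hno : ¬ ∀ᶠ m in (UF : Filter ℕ), Y.Le Q₀ (K₀ : Set Y.P) y₀ (Y.t m)) :
    ∃ (y : Tm Y.L) (e₀ : (l : Y.L) → Mv Y.sz l), y.lv.Nodup ∧ y.lv.length = y₀.lv.length ∧
      ¬ II Y y ∧ LeW Y Q₀ (K₀ : Set Y.P) y₀ y e₀ ∧
      Set.InjOn (fun l => (e₀ l).1) {l | l ∈ y₀.lv} ∧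
      ∀ l ∈ y.lv, ∀ i < q, Loc Y em l i → Good Y em i :=
  row_F hY y₀ hy₀ (fun h => hno (h K₀ Q₀ hQ₀.fine)) K₀ Q₀ hQ₀ q em hem

end Pool.Agent.Lib.MP_4fb322_lc_e
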