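import Mathlib
import Pool.Agent.Lib.MP_4fb322_lc_e.EDefs
import Pool.Agent.Lib.MP_4fb322_lc_q.TreeDefs

set_option autoImplicit false

/-!
# END GAME, row E4 (helper21): the terms `N (n, m)`, definitions
-/

namespace Pool.Agent.Lib.MP_4fb322_lc_e

open Set Filter Pool.Agent.Lib.MP_4fb322_lc_q

variable {I : Type} {ar : I → ℕ}

/-- the data given by the tree lemma for the main terms of a system -/
structure TD (Y : SYS ar) {Γ : Type} (π : Y.L → Γ) (q : ℕ) (em : ℕ → ℕ → Y.L) (c : ℕ → Γ)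
    (rest : ℕ → List Y.L) (Ω : Set ℕ) (A : List ℕ → Tm (Nm Y.L)) : Prop where
  mem : ∀ᶠ j in (UF : Filter ℕ), j ∈ Ω
  perm : ∀ j ∈ Ω, (Y.t j).lv.Perm ((List.range q).map (em j) ++ rest j)
  col : ∀ j ∈ Ω, ∀ l < q, π (em j l) = c l
  permA : ∀ J : List ℕ, J ≠ [] → (∀ j ∈ J, j ∈ Ω) →
    ((A J).lv).Perm ((List.range q).map Sum.inl ++
      J.flatMap (fun j => (rest j).map (fun b => Sum.inr (j, b))))
  sub : ∀ J : List ℕ, J ≠ [] → (∀ j ∈ J, j ∈ Ω) → ∀ j ∈ J,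
    Tm.TEmb (NmOf q (em j) j) (Y.t j) (A J)
  into : ∀ J : List ℕ, J ≠ [] → (∀ j ∈ J, j ∈ Ω) →
    ∀ᶠ m in (UF : Filter ℕ), Tm.TEmb (NmCol π c) (A J) (Y.t m)

open Classical in
/-- the elements `≤ n` of `Ω` -/
noncomputable def JL (Ω : Set ℕ) (n : ℕ) : List ℕ := (List.range (n + 1)).filter (fun j => j ∈ Ω)

/-- the comb of a list of labels (`d` if the list is empty) -/
def combL {L : Type} (d : L) : List L → Tm L
  | [] => .leaf d
  | a :: l => Tm.comb (.leaf a) (l.map .leaf)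

open Classical in
/-- what is put at the leaves of `A J` -/
noncomputable def sig {L : Type} (em : ℕ → ℕ → L) (G : Set ℕ) (J : List ℕ) (m : ℕ) : Nm L → Tm L
  | Sum.inl l => if l ∈ G then .leaf (em m l) else combL (em m l) (J.map (fun j => em j l))
  | Sum.inr (_, b) => .leaf b

/-- the term `N (n, m)`; `G` = the set of good places, `Ω` = the large set of indices used -/
noncomputable def NN {L : Type} (A : List ℕ → Tm (Nm L)) (em : ℕ → ℕ → L) (G Ω : Set ℕ) (n m : ℕ) :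
    Tm L := (A (JL Ω n)).subst (sig em G (JL Ω n) m)

open Classical in
/-- its pins -/
noncomputable def pNN (Y : SYS ar) (Ω : Set ℕ) (n m : ℕ) : Finset Y.P :=
  (JL Ω n).toFinset.biUnion Y.pn ∪ Y.pn m

/-- first `n`, then `m` -/
noncomputable def UF2 : Ultrafilter (ℕ × ℕ) := (UF : Ultrafilter ℕ).bind (fun n => (UF : Ultrafilter ℕ).map (Prod.mk n))

/-- STATEMENT OF ROW E4: the family `N (n, m)` is full. -/
def NNFull : Prop :=
  ∀ (I : Type) (ar : I → ℕ) (Y : SYS ar) (_ : Y.Ax) (Γ : Type) (π : Y.L → Γ) (q : ℕ)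
    (em : ℕ → ℕ → Y.L) (c : ℕ → Γ) (rest : ℕ → List Y.L) (Ω₀ : Set ℕ) (A : List ℕ → Tm (Nm Y.L)),
    TD Y π q em c rest Ω₀ A → ∀ (G Ω : Set ℕ), (∀ᶠ j in (UF : Filter ℕ), j ∈ Ω) → Ω ⊆ Ω₀ →
    (∀ j ∈ Ω, ∀ l < q, l ∈ G → Loc Y em (em j l) l) →
      Full Y UF2 (fun p => NN A em G Ω p.1 p.2) (fun p => pNN Y Ω p.1 p.2)

/-- STATEMENT: the labels of `N (n, m)`. -/
def NNLabels : Prop :=
  ∀ (L : Type) (A : List ℕ → Tm (Nm L)) (em : ℕ → ℕ → L) (G Ω : Set ℕ) (n m : ℕ), JL Ω n ≠ [] →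
    ∀ d : L, d ∈ (NN A em G Ω n m).lv ↔
      ∃ x ∈ (A (JL Ω n)).lv, (∃ l, x = Sum.inl l ∧ l ∈ G ∧ d = em m l) ∨
        (∃ l, x = Sum.inl l ∧ l ∉ G ∧ ∃ j ∈ JL Ω n, d = em j l) ∨ (∃ j, x = Sum.inr (j, d))

end Pool.Agent.Lib.MP_4fb322_lc_e
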