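import Mathlib
import Pool.Agent.Lib.MP_4fb322_lc_e.E4Defs
import Pool.Agent.Lib.MP_4fb322_lc_e.EndBase
import Pool.Agent.Lib.MP_4fb322_lc_q.TreeBasic

set_option autoImplicit false

/-!
# END GAME, row E4 (helper21): the family `N (n, m)` is full
-/

namespace Pool.Agent.Lib.MP_4fb322_lc_e

open Set Filter Pool.Agent.Lib.MP_4fb322_lc_q

variable {I : Type} {ar : I → ℕ}

/-! ### The iterated ultrafilter -/

theorem uf2_iff (P : ℕ × ℕ → Prop) :
    (∀ᶠ p in (UF2 : Filter (ℕ × ℕ)), P p) ↔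
      ∀ᶠ n in (UF : Filter ℕ), ∀ᶠ m in (UF : Filter ℕ), P (n, m) := Iff.rfl

theorem uf_gt (n : ℕ) : ∀ᶠ m in (UF : Filter ℕ), n < m :=
  Nat.hyperfilter_le_atTop (eventually_gt_atTop n)

theorem mem_JL {Ω : Set ℕ} {n j : ℕ} : j ∈ JL Ω n ↔ j ≤ n ∧ j ∈ Ω := by
  classical
  simp [JL]

theorem JL_nodup (Ω : Set ℕ) (n : ℕ) : (JL Ω n).Nodup := by
  classical
  exact (List.nodup_range).filter _

theorem JL_ne_nil {Ω : Set ℕ} (h : ∀ᶠ j in (UF : Filter ℕ), j ∈ Ω) :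
    ∀ᶠ n in (UF : Filter ℕ), JL Ω n ≠ [] := by
  obtain ⟨j, hj⟩ := h.exists
  filter_upwards [uf_gt j] with n hn h0
  have : j ∈ JL Ω n := mem_JL.2 ⟨hn.le, hj⟩
  rw [h0] at this
  simp at this

theorem combL_lv {L : Type} (d : L) (l : List L) (hl : l ≠ []) : (combL d l).lv = l := by
  obtain ⟨a, l, rfl⟩ := List.exists_cons_of_ne_nil hl
  have key : ∀ (l : List L) (a : L), (Tm.comb (.leaf a) (l.map .leaf)).lv = a :: l := by
    intro l
    induction l with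
    | nil => intro a; rfl
    | cons b l ih =>
      intro a
      rw [List.map_cons]
      have : (Tm.comb (.leaf a) (Tm.leaf b :: l.map .leaf)).lv =
        a :: (Tm.comb (.leaf b) (l.map .leaf)).lv := rfl
      rw [this, ih b]
  exact key l a

theorem sig_inl_good {L : Type} {em : ℕ → ℕ → L} {G : Set ℕ} {J : List ℕ} {m l : ℕ} (hl : l ∈ G) :
    sig em G J m (Sum.inl l) = .leaf (em m l) := by
  classical
  simp [sig, hl]

theorem sig_inl_bad {L : Type} {em : ℕ → ℕ → L} {G : Set ℕ} {J : List ℕ} {m l : ℕ} (hl : l ∉ G) :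
    sig em G J m (Sum.inl l) = combL (em m l) (J.map (fun j => em j l)) := by
  classical
  simp [sig, hl]

theorem sig_inr {L : Type} {em : ℕ → ℕ → L} {G : Set ℕ} {J : List ℕ} {m j : ℕ} {b : L} :
    sig em G J m (Sum.inr (j, b)) = .leaf b := rfl

/-- The labels put at one name. -/
theorem mem_sig {L : Type} {em : ℕ → ℕ → L} {G : Set ℕ} {J : List ℕ} {m : ℕ} (hJ : J ≠ [])
    {x : Nm L} {d : L} : d ∈ (sig em G J m x).lv ↔
      (∃ l, x = Sum.inl l ∧ l ∈ G ∧ d = em m l) ∨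
        (∃ l, x = Sum.inl l ∧ l ∉ G ∧ ∃ j ∈ J, d = em j l) ∨ (∃ j, x = Sum.inr (j, d)) := by
  classical
  rcases x with l | ⟨j, b⟩
  · by_cases hl : l ∈ G
    · rw [sig_inl_good hl]
      simp [Tm.lv, hl]
    · rw [sig_inl_bad hl, combL_lv _ _ (by simpa using hJ)]
      simp [hl, eq_comm]
  · rw [sig_inr]
    simp [Tm.lv, eq_comm]

theorem nnLabels : NNLabels := by
  intro L A em G Ω n m hJ d
  rw [NN, Tm.lv_subst, List.mem_flatMap]
  constructor
  · rintro ⟨x, hx, hd⟩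
    exact ⟨x, hx, (mem_sig hJ).1 hd⟩
  · rintro ⟨x, hx, hd⟩
    exact ⟨x, hx, (mem_sig hJ).2 hd⟩

section nodup

variable {Y : SYS ar} {Γ : Type} {π : Y.L → Γ} {q : ℕ} {em : ℕ → ℕ → Y.L} {c : ℕ → Γ}
  {rest : ℕ → List Y.L} {Ω₀ : Set ℕ} {A : List ℕ → Tm (Nm Y.L)}

theorem TD.inj (hY : Y.Ax) (h : TD Y π q em c rest Ω₀ A) {j : ℕ} (hj : j ∈ Ω₀) {l l' : ℕ}
    (hl : l < q) (hl' : l' < q) (he : em j l = em j l') : l = l' := by
  have h1 := (h.perm j hj).nodup_iff.1 (hY.nodup j)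
  rw [List.nodup_append] at h1
  exact List.inj_on_of_nodup_map h1.1 (List.mem_range.2 hl) (List.mem_range.2 hl') he

theorem TD.em_rest (hY : Y.Ax) (h : TD Y π q em c rest Ω₀ A) {j : ℕ} (hj : j ∈ Ω₀) {l : ℕ}
    (hl : l < q) : em j l ∉ rest j := by
  have h1 := (h.perm j hj).nodup_iff.1 (hY.nodup j)
  rw [List.nodup_append] at h1
  intro h2
  exact h1.2.2 (em j l) (List.mem_map_of_mem (List.mem_range.2 hl)) _ h2 rfl

theorem TD.rest_nodup (hY : Y.Ax) (h : TD Y π q em c rest Ω₀ A) {j : ℕ} (hj : j ∈ Ω₀) :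
    (rest j).Nodup := by
  have h1 := (h.perm j hj).nodup_iff.1 (hY.nodup j)
  rw [List.nodup_append] at h1
  exact h1.2.1

theorem TD.em_mem (h : TD Y π q em c rest Ω₀ A) {j : ℕ} (hj : j ∈ Ω₀) {l : ℕ}
    (hl : l < q) : em j l ∈ (Y.t j).lv := by
  rw [(h.perm j hj).mem_iff, List.mem_append]
  exact Or.inl (List.mem_map_of_mem (List.mem_range.2 hl))

theorem TD.rest_mem (h : TD Y π q em c rest Ω₀ A) {j : ℕ} (hj : j ∈ Ω₀) {b : Y.L}
    (hb : b ∈ rest j) : b ∈ (Y.t j).lv := by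
  rw [(h.perm j hj).mem_iff, List.mem_append]
  exact Or.inr hb

theorem TD.eq_of_mem (hY : Y.Ax) {j k : ℕ} {d : Y.L} (h1 : d ∈ (Y.t j).lv) (h2 : d ∈ (Y.t k).lv) :
    j = k := by
  by_contra h
  exact hY.disj j k h d h1 h2

/-- The names in `A J`. -/
theorem TD.mem_names (h : TD Y π q em c rest Ω₀ A) {J : List ℕ} (hJ : J ≠ [])
    (hJΩ : ∀ j ∈ J, j ∈ Ω₀) {x : Nm Y.L} : x ∈ (A J).lv ↔
      (∃ l, l < q ∧ x = Sum.inl l) ∨ ∃ j ∈ J, ∃ b ∈ rest j, x = Sum.inr (j, b) := by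
  rw [(h.permA J hJ hJΩ).mem_iff]
  simp only [List.mem_append, List.mem_map, List.mem_range, List.mem_flatMap]
  constructor
  · rintro (⟨l, hl, rfl⟩ | ⟨j, hj, b, hb, rfl⟩)
    · exact Or.inl ⟨l, hl, rfl⟩
    · exact Or.inr ⟨j, hj, b, hb, rfl⟩
  · rintro (⟨l, hl, rfl⟩ | ⟨j, hj, b, hb, rfl⟩)
    · exact Or.inl ⟨l, hl, rfl⟩
    · exact Or.inr ⟨j, hj, b, hb, rfl⟩

theorem TD.names_nodup (hY : Y.Ax) (h : TD Y π q em c rest Ω₀ A) {J : List ℕ} (hJ : J ≠ [])
    (hJΩ : ∀ j ∈ J, j ∈ Ω₀) (hJn : J.Nodup) : (A J).lv.Nodup := by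
  rw [(h.permA J hJ hJΩ).nodup_iff, List.nodup_append]
  refine ⟨(List.nodup_range).map (fun _ _ h => Sum.inl.inj h), ?_, ?_⟩
  · rw [List.nodup_flatMap]
    refine ⟨fun j hj => (h.rest_nodup hY (hJΩ j hj)).map ?_, ?_⟩
    · intro a b hab
      simpa using hab
    · refine hJn.imp ?_
      intro i j hij x hx hx'
      simp only [List.mem_map] at hx hx'
      obtain ⟨b, _, rfl⟩ := hx
      obtain ⟨b', _, hb'⟩ := hx'
      simp only [Sum.inr.injEq, Prod.mk.injEq] at hb'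
      exact hij hb'.1.symm
  · intro x hx y hy hxy
    simp only [List.mem_map, List.mem_flatMap] at hx hy
    obtain ⟨l, _, rfl⟩ := hx
    obtain ⟨j, _, b, _, rfl⟩ := hy
    simp at hxy

/-- `N (n, m)` has no repeated labels. -/
theorem NN_nodup (hY : Y.Ax) (h : TD Y π q em c rest Ω₀ A) {G Ω : Set ℕ} (hΩ : Ω ⊆ Ω₀) {n m : ℕ}
    (hJ : JL Ω n ≠ []) (hm : m ∈ Ω₀) : (NN A em G Ω n m).lv.Nodup := by
  have hJΩ : ∀ j ∈ JL Ω n, j ∈ Ω₀ := fun j hj => hΩ (mem_JL.1 hj).2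
  -- the origin of a label
  have origin : ∀ x ∈ (A (JL Ω n)).lv, ∀ d ∈ (sig em G (JL Ω n) m x).lv,
      ∃ k, k ∈ Ω₀ ∧ d ∈ (Y.t k).lv ∧
        ((∃ l, l < q ∧ x = Sum.inl l ∧ d = em k l) ∨ (x = Sum.inr (k, d) ∧ d ∈ rest k)) := by
    intro x hx d hd
    rw [h.mem_names hJ hJΩ] at hx
    rw [mem_sig hJ] at hd
    rcases hx with ⟨l, hl, rfl⟩ | ⟨j, hj, b, hb, rfl⟩
    · rcases hd with ⟨l', hl', _, rfl⟩ | ⟨l', hl', _, j, hj, rfl⟩ | ⟨j, hj⟩
      · simp only [Sum.inl.injEq] at hl'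
        subst hl'
        exact ⟨m, hm, h.em_mem hm hl, Or.inl ⟨l, hl, rfl, rfl⟩⟩
      · simp only [Sum.inl.injEq] at hl'
        subst hl'
        exact ⟨j, hJΩ j hj, h.em_mem (hJΩ j hj) hl, Or.inl ⟨l, hl, rfl, rfl⟩⟩
      · simp at hj
    · rcases hd with ⟨l', hl', _, rfl⟩ | ⟨l', hl', _, j, hj, rfl⟩ | ⟨j', hj'⟩
      · simp at hl'
      · simp at hl'
      · simp only [Sum.inr.injEq, Prod.mk.injEq] at hj'
        obtain ⟨rfl, rfl⟩ := hj'
        exact ⟨j, hJΩ j hj, h.rest_mem (hJΩ j hj) hb, Or.inr ⟨rfl, hb⟩⟩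
  have hdis : ∀ x ∈ (A (JL Ω n)).lv, ∀ y ∈ (A (JL Ω n)).lv, ∀ d ∈ (sig em G (JL Ω n) m x).lv,
      d ∈ (sig em G (JL Ω n) m y).lv → x = y := by
    intro x hx y hy d hdx hdy
    obtain ⟨k, hk, hdk, hk'⟩ := origin x hx d hdx
    obtain ⟨k', hkΩ', hdk', hk''⟩ := origin y hy d hdy
    have hkk : k = k' := TD.eq_of_mem hY hdk hdk'
    subst hkk
    rcases hk' with ⟨l, hl, rfl, hd⟩ | ⟨rfl, hd⟩
    · rcases hk'' with ⟨l', hl', rfl, hd'⟩ | ⟨rfl, hd'⟩
      · rw [h.inj hY hk hl hl' (hd.symm.trans hd')]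
      · exact absurd hd' (hd ▸ h.em_rest hY hk hl)
    · rcases hk'' with ⟨l', hl', rfl, hd'⟩ | ⟨rfl, hd'⟩
      · exact absurd hd (hd' ▸ h.em_rest hY hk hl')
      · rfl
  rw [NN, Tm.lv_subst, List.nodup_flatMap]
  refine ⟨?_, ?_⟩
  · intro x hx
    rw [h.mem_names hJ hJΩ] at hx
    rcases hx with ⟨l, hl, rfl⟩ | ⟨j, hj, b, hb, rfl⟩
    · by_cases hlG : l ∈ G
      · rw [sig_inl_good hlG]; simp [Tm.lv]
      · rw [sig_inl_bad hlG, combL_lv _ _ (by simpa using hJ)]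
        refine List.Nodup.map_on ?_ (JL_nodup Ω n)
        intro i hi j hj hij
        exact TD.eq_of_mem hY (h.em_mem (hJΩ i hi) hl) (hij ▸ h.em_mem (hJΩ j hj) hl)
    · rw [sig_inr]; simp [Tm.lv]
  · have hn := h.names_nodup hY hJ hJΩ (JL_nodup Ω n)
    refine (List.Nodup.pairwise_of_forall_ne hn ?_)
    intro x hx y hy hne d hdx hdy
    exact hne (hdis x hx y hy d hdx hdy)

end nodup

/-- ROW E4: the family `N (n, m)` is full. -/
theorem nnFull : NNFull := by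
  classical
  intro I ar Y hY Γ π q em c rest Ω₀ A h G Ω hΩu hΩ hG
  refine ⟨?_, ?_⟩
  · rw [uf2_iff (fun p => (NN A em G Ω p.1 p.2).lv.Nodup)]
    filter_upwards [JL_ne_nil hΩu] with n hn
    filter_upwards [h.mem] with m hm'
    exact NN_nodup hY h hΩ hn hm'
  · have hfr : ∃ᶠ j in (atTop : Filter ℕ), j ∈ Ω := by
      have : ∃ᶠ j in (UF : Filter ℕ), j ∈ Ω := hΩu.frequently
      exact this.filter_mono Nat.hyperfilter_le_atTop
    refine hfr.mono ?_
    intro j hj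
    rw [uf2_iff (fun p => Y.Emb (Y.t j) (Y.pn j) (NN A em G Ω p.1 p.2) (pNN Y Ω p.1 p.2))]
    filter_upwards [uf_gt j, JL_ne_nil hΩu] with n hn hJ
    have hJΩ : ∀ j ∈ JL Ω n, j ∈ Ω₀ := fun j hj => hΩ (mem_JL.1 hj).2
    have hjJ : j ∈ JL Ω n := mem_JL.2 ⟨hn.le, hj⟩
    obtain ⟨Q, hQ, hQe⟩ := lc_le hY (Y.t j) (hY.nodup j) (Y.pn j)
    have hloc : ∀ᶠ m in (UF : Filter ℕ), ∀ l ∈ Finset.range q, l ∈ G → PLe Y Q (em j l) (em m l) := by
      rw [Filter.eventually_all_finset]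
      intro l hl
      by_cases hlG : l ∈ G
      · filter_upwards [hG j hj l (Finset.mem_range.1 hl) hlG Q hQ] with m hm _
        exact hm
      · exact Filter.Eventually.of_forall (fun m hm => absurd hm hlG)
    filter_upwards [hloc, uf_gt n, h.mem] with m hloc hm hmΩ
    have hjm : j ≠ m := by omega
    -- the target labels
    let θ : Y.L → Y.L := fun d =>
      if hd : ∃ l, l < q ∧ l ∈ G ∧ em j l = d then em m hd.choose else d
    have hθ1 : ∀ l, l < q → l ∈ G → θ (em j l) = em m l := by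
      intro l hl hlG
      have hd : ∃ l', l' < q ∧ l' ∈ G ∧ em j l' = em j l := ⟨l, hl, hlG, rfl⟩
      simp only [θ, dif_pos hd]
      congr 1
      exact h.inj hY (hJΩ j hjJ) hd.choose_spec.1 hl hd.choose_spec.2.2
    have hθ2 : ∀ d, (¬ ∃ l, l < q ∧ l ∈ G ∧ em j l = d) → θ d = d := by
      intro d hd
      simp only [θ, dif_neg hd]
    have hex : ∀ d, ∃ p : Mv Y.sz d, (d ∈ (Y.t j).lv → p ∈ Q d) ∧ p.1 = θ d := by
      intro d
      by_cases hd : ∃ l, l < q ∧ l ∈ G ∧ em j l = d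
      · obtain ⟨l, hl, hlG, rfl⟩ := hd
        obtain ⟨g, hg⟩ := hloc l (Finset.mem_range.2 hl) hlG
        exact ⟨⟨em m l, g⟩, fun _ => hg, (hθ1 l hl hlG).symm⟩
      · exact ⟨⟨d, fun x => x⟩, fun _ => hY.refl d _ (hQ d), (hθ2 d hd).symm⟩
    choose e he1 he2 using hex
    have hinj : Set.InjOn (fun l => (e l).1) {l | l ∈ (Y.t j).lv} := by
      intro a ha b hb hab
      simp only [he2] at hab
      by_cases hda : ∃ l, l < q ∧ l ∈ G ∧ em j l = a
      · obtain ⟨l, hl, hlG, rfl⟩ := hda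
        rw [hθ1 l hl hlG] at hab
        by_cases hdb : ∃ l, l < q ∧ l ∈ G ∧ em j l = b
        · obtain ⟨l', hl', hlG', rfl⟩ := hdb
          rw [hθ1 l' hl' hlG'] at hab
          rw [h.inj hY hmΩ hl hl' hab]
        · rw [hθ2 b hdb] at hab
          exact absurd (TD.eq_of_mem hY hb (hab ▸ h.em_mem hmΩ hl)) hjm
      · rw [hθ2 a hda] at hab
        by_cases hdb : ∃ l, l < q ∧ l ∈ G ∧ em j l = b
        · obtain ⟨l', hl', hlG', rfl⟩ := hdb
          rw [hθ1 l' hl' hlG'] at hab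
          exact absurd (TD.eq_of_mem hY ha (hab.symm ▸ h.em_mem hmΩ hl')) hjm
        · rw [hθ2 b hdb] at hab
          exact hab
    have hle := hQe (fun _ => Set.univ) e hinj (fun l hl => he1 l hl) (fun l _ => Set.mem_univ _)
    have hmap : ((Y.t j).map fun l => (e l).1) = (Y.t j).map θ :=
      Tm.map_congr (fun a _ => he2 a)
    have hsub : Sub ((Y.t j).map fun l => (e l).1) (NN A em G Ω n m) := by
      rw [hmap, Tm.sub_iff, NN, ← Tm.subst_leaf θ (Y.t j)]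
      refine (h.sub (JL Ω n) hJ hJΩ j hjJ).subst ?_
      intro b hb x hx hbx
      rcases hbx with ⟨l, hl, rfl, rfl⟩ | rfl
      · by_cases hlG : l ∈ G
        · rw [sig_inl_good hlG, hθ1 l hl hlG]
          exact .leaf rfl
        · rw [sig_inl_bad hlG]
          have h2 : θ (em j l) = em j l := by
            apply hθ2
            rintro ⟨l', hl', hlG', he'⟩
            rw [h.inj hY (hJΩ j hjJ) hl' hl he'] at hlG'
            exact hlG hlG'
          rw [h2]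
          refine Tm.TEmb.leaf_mem (b := em j l) ?_ rfl
          rw [combL_lv _ _ (by simpa using hJ)]
          exact List.mem_map_of_mem hjJ
      · rw [sig_inr]
        have hb' : b ∈ rest j := by
          rw [h.mem_names hJ hJΩ] at hx
          rcases hx with ⟨l, _, hl⟩ | ⟨j', hj', b', hb', hx'⟩
          · simp at hl
          · simp only [Sum.inr.injEq, Prod.mk.injEq] at hx'
            obtain ⟨rfl, rfl⟩ := hx'
            exact hb'
        have h2 : θ b = b := by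
          apply hθ2
          rintro ⟨l', hl', _, he'⟩
          exact h.em_rest hY (hJΩ j hjJ) hl' (he' ▸ hb')
        rw [h2]
        exact .leaf rfl
    have hnd := NN_nodup (G := G) hY h hΩ hJ hmΩ
    have hup := hle.up hY hnd hsub
    refine hup.emb _ ?_
    intro p hp
    simp only [pNN, Finset.coe_union, Set.mem_union, Finset.mem_coe, Finset.mem_biUnion,
      List.mem_toFinset]
    exact Or.inl ⟨j, hjJ, hp⟩

/-- Induced subterms of a substituted tree which only see the places where a label is put. -/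
theorem sub_subst_pull {L N : Type} (σ : N → Tm L) (θ : N → L) (Gd : N → Prop) {s : Tm L} (t : Tm N)
    (hσ : ∀ x ∈ t.lv, (Gd x ∧ σ x = .leaf (θ x)) ∨ ∀ d ∈ (σ x).lv, d ∉ s.lv)
    (h : Sub s (t.subst σ)) : ∃ a, Sub a t ∧ s = a.map θ ∧ ∀ x ∈ a.lv, Gd x := by
  induction t generalizing s with
  | leaf x =>
    have h' : Sub s (σ x) := h
    rcases hσ x (by simp [Tm.lv]) with ⟨h0, h1⟩ | h1
    · rw [h1] at h'
      cases h'
      exact ⟨.leaf x, .leaf x, rfl, by simpa [Tm.lv] using h0⟩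
    · exfalso
      obtain ⟨d, hd⟩ := List.exists_mem_of_ne_nil _ (Tm.lv_ne_nil s)
      exact h1 d ((sub_lv h').subset hd) hd
  | node t1 t2 ih1 ih2 =>
    have h' : Sub s (.node (t1.subst σ) (t2.subst σ)) := h
    cases h' with
    | left h' =>
      obtain ⟨a, ha, rfl, hg⟩ := ih1 (fun x hx => hσ x (by simp [Tm.lv, hx])) h'
      exact ⟨a, .left ha, rfl, hg⟩
    | right h' =>
      obtain ⟨a, ha, rfl, hg⟩ := ih2 (fun x hx => hσ x (by simp [Tm.lv, hx])) h'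
      exact ⟨a, .right ha, rfl, hg⟩
    | node h1 h2 =>
      obtain ⟨a, ha, rfl, hga⟩ := ih1 (fun x hx => (hσ x (by simp [Tm.lv, hx])).imp id
        (fun h3 d hd hd' => h3 d hd (by simp [Tm.lv, hd']))) h1
      obtain ⟨b, hb, rfl, hgb⟩ := ih2 (fun x hx => (hσ x (by simp [Tm.lv, hx])).imp id
        (fun h3 d hd hd' => h3 d hd (by simp [Tm.lv, hd']))) h2
      refine ⟨.node a b, .node ha hb, rfl, ?_⟩
      intro x hx
      simp only [Tm.lv, List.mem_append] at hx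
      exact hx.elim (hga x) (hgb x)

/-- The label at a name (good special names and ordinary names). -/
def thN {L : Type} (em : ℕ → ℕ → L) (m : ℕ) : Nm L → L
  | Sum.inl l => em m l
  | Sum.inr (_, b) => b

/-- An induced subterm of `N (n, m)` which avoids the bad labels comes from `A J`. -/
theorem NN_pull {L : Type} {A : List ℕ → Tm (Nm L)} {em : ℕ → ℕ → L} {G Ω : Set ℕ} {n m : ℕ}
    (hJ : JL Ω n ≠ []) {z : Tm L} (hz : Sub z (NN A em G Ω n m))
    (hbad : ∀ l, Sum.inl l ∈ (A (JL Ω n)).lv → l ∉ G → ∀ j ∈ JL Ω n, em j l ∉ z.lv) :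
    ∃ a, Sub a (A (JL Ω n)) ∧ z = a.map (thN em m) ∧ ∀ l, Sum.inl l ∈ a.lv → l ∈ G := by
  obtain ⟨a, ha, ha', hg⟩ := sub_subst_pull (sig em G (JL Ω n) m) (thN em m)
    (fun x => ∀ l, x = Sum.inl l → l ∈ G) (s := z) (A (JL Ω n)) (by
      intro x hx
      rcases x with l | ⟨j, b⟩
      · by_cases hl : l ∈ G
        · left
          rw [sig_inl_good hl]
          exact ⟨fun l' hl' => by simp only [Sum.inl.injEq] at hl'; exact hl' ▸ hl, rfl⟩
        · right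
          intro d hd
          rw [sig_inl_bad hl, combL_lv _ _ (by simpa using hJ)] at hd
          obtain ⟨j, hj, rfl⟩ := List.mem_map.1 hd
          exact hbad l hx hl j hj
      · left
        exact ⟨fun l hl => by simp at hl, rfl⟩) hz
  exact ⟨a, ha, ha', fun l hl => hg _ hl l rfl⟩

end Pool.Agent.Lib.MP_4fb322_lc_e
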