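import Mathlib
import Pool.Agent.Lib.MP_4fb322_lc_e.E2
import Pool.Agent.Lib.MP_4fb322_lc_e.E3
import Pool.Agent.Lib.MP_4fb322_lc_e.E4
import Pool.Agent.Lib.MP_4fb322_lc_q.TreeMain
import Pool.Agent.Lib.MP_4fb322_lc_q.Iface

set_option autoImplicit false

/-!
# END GAME, rows H and THEOREM A
-/

namespace Pool.Agent.Lib.MP_4fb322_lc_e

open Set Filter Pool.Agent.Lib.MP_4fb322_lc_q

variable {I : Type} {ar : I → ℕ} {Y : SYS ar}

theorem PLe.mono' {Q Q' : (l : Y.L) → Set (Mv Y.sz l)} {d m : Y.L} (h : PLe Y Q d m)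
    (hQ : Q d ⊆ Q' d) : PLe Y Q' d m := by
  obtain ⟨g, hg⟩ := h
  exact ⟨g, hQ hg⟩

/-- the transfer from an embedding into an induced part of the names to an embedding into a main term -/
theorem transfer {N : Type} (hY : Y.Ax) {y0 : Tm Y.L} {K : Set Y.P}
    {Q0 Qlc : (l : Y.L) → Set (Mv Y.sz l)} (hQ : ∀ l, Q0 l ⊆ Qlc l)
    (hlc : ∀ y' : Tm Y.L, y'.lv.Nodup → (∀ l, l ∈ y'.lv ↔ l ∈ y0.lv) →
      ∀ (Q1 : (l : Y.L) → Set (Mv Y.sz l)) (e : (l : Y.L) → Mv Y.sz l),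
        Set.InjOn (fun l => (e l).1) {l | l ∈ y0.lv} → (∀ l ∈ y0.lv, e l ∈ Qlc l) →
        (∀ l ∈ y0.lv, e l ∈ Q1 l) → LeW Y Q1 K y' (y'.map fun l => (e l).1) e)
    {e1 : (l : Y.L) → Mv Y.sz l} (a : Tm N) (θ f : N → Y.L)
    (hz : (a.map θ).lv.Nodup) (h1 : LeW Y Q0 K y0 (a.map θ) e1)
    (h1i : Set.InjOn (fun l => (e1 l).1) {l | l ∈ y0.lv})
    (h1s : ∀ x ∈ a.lv, ∃ d ∈ y0.lv, (e1 d).1 = θ x)
    (hcol : ∀ x ∈ a.lv, ∀ d ∈ y0.lv, PLe Y Q0 d (θ x) → PLe Y Q0 d (f x))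
    {t : Tm Y.L} (ht : t.lv.Nodup) (hs : Sub (a.map f) t) : Y.Le Q0 K y0 t := by
  classical
  -- θ is injective on the names
  have hθ : ∀ x ∈ a.lv, ∀ x' ∈ a.lv, θ x = θ x' → x = x' := by
    rw [Tm.lv_map] at hz
    intro x hx x' hx' h
    exact List.inj_on_of_nodup_map hz hx hx' h
  have hf : ∀ x ∈ a.lv, ∀ x' ∈ a.lv, f x = f x' → x = x' :=
    Tm.TEmb.map_injOn (Tm.sub_iff.1 hs) ht
  have han : a.lv.Nodup := by
    rw [Tm.lv_map] at hz
    exact List.Nodup.of_map _ hz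
  -- the name of a label of y0
  have hx : ∀ d : Y.L, ∃ x : N, d ∈ y0.lv → x ∈ a.lv ∧ θ x = (e1 d).1 := by
    intro d
    by_cases hd : d ∈ y0.lv
    · have := h1.2.1 d hd
      rw [Tm.lv_map, List.mem_map] at this
      obtain ⟨x, hx, hx'⟩ := this
      exact ⟨x, fun _ => ⟨hx, hx'⟩⟩
    · obtain ⟨x, -⟩ := List.exists_mem_of_ne_nil _ (Tm.lv_ne_nil a)
      exact ⟨x, fun h => absurd h hd⟩
  choose xn hxn using hx
  -- the label of a name
  have hu : ∀ x : N, ∃ d : Y.L, x ∈ a.lv → d ∈ y0.lv ∧ (e1 d).1 = θ x := by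
    intro x
    by_cases hx : x ∈ a.lv
    · obtain ⟨d, hd, hd'⟩ := h1s x hx
      exact ⟨d, fun _ => ⟨hd, hd'⟩⟩
    · exact ⟨θ x, fun h => absurd h hx⟩
  choose u hu using hu
  have hxu : ∀ x ∈ a.lv, xn (u x) = x := by
    intro x hx
    have h2 := hxn (u x) (hu x hx).1
    exact hθ _ h2.1 x hx (h2.2.trans (hu x hx).2)
  have hux : ∀ d ∈ y0.lv, u (xn d) = d := by
    intro d hd
    have h2 := hxn d hd
    have h3 := hu _ h2.1
    exact h1i h3.1 hd (h3.2.trans h2.2)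
  -- the second move
  have he2 : ∀ d : Y.L, ∃ p : Mv Y.sz d, d ∈ y0.lv → p ∈ Q0 d ∧ p.1 = f (xn d) := by
    intro d
    by_cases hd : d ∈ y0.lv
    · have h2 := hxn d hd
      have h3 : PLe Y Q0 d (θ (xn d)) := by
        rw [h2.2]
        exact ⟨(e1 d).2, h1.1 d hd⟩
      obtain ⟨g, hg⟩ := hcol _ h2.1 d hd h3
      exact ⟨⟨_, g⟩, fun _ => ⟨hg, rfl⟩⟩
    · exact ⟨⟨d, fun x => x⟩, fun h => absurd h hd⟩
  choose e2 he2 using he2
  have hlab : ∀ l, l ∈ (a.map u).lv ↔ l ∈ y0.lv := by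
    intro l
    rw [Tm.lv_map, List.mem_map]
    constructor
    · rintro ⟨x, hx, rfl⟩
      exact (hu x hx).1
    · intro hl
      exact ⟨xn l, (hxn l hl).1, hux l hl⟩
  have hnd : (a.map u).lv.Nodup := by
    rw [Tm.lv_map]
    refine List.Nodup.map_on ?_ han
    intro x hx x' hx' h
    rw [← hxu x hx, ← hxu x' hx', h]
  have h2i : Set.InjOn (fun l => (e2 l).1) {l | l ∈ y0.lv} := by
    intro d hd d' hd' h
    have h3 : f (xn d) = f (xn d') := by
      rw [← (he2 d hd).2, ← (he2 d' hd').2]; exact h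
    have h4 := hf _ (hxn d hd).1 _ (hxn d' hd').1 h3
    rw [← hux d hd, ← hux d' hd', h4]
  have k1 := hlc (a.map u) hnd hlab Q0 e1 h1i (fun l hl => hQ l (h1.1 l hl)) (fun l hl => h1.1 l hl)
  have k2 := hlc (a.map u) hnd hlab Q0 e2 h2i (fun l hl => hQ l (he2 l hl).1)
    (fun l hl => (he2 l hl).1)
  have m1 : ((a.map u).map fun l => (e1 l).1) = a.map θ := by
    rw [Tm.map_map]
    exact Tm.map_congr fun x hx => (hu x hx).2
  have m2 : ((a.map u).map fun l => (e2 l).1) = a.map f := by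
    rw [Tm.map_map]
    refine Tm.map_congr fun x hx => ?_
    rw [(he2 _ (hu x hx).1).2, hxu x hx]
  rw [m1] at k1
  rw [m2] at k2
  have k3 := k2.up hY ht hs
  exact (LeW.swap (fun l => (hlab l).symm) h1 k1 k3).le

/-- **all terms are hosted by most main terms** -/
theorem allII (hY : Y.Ax) (y : Tm Y.L) (hy : y.lv.Nodup) : II Y y := by
  classical
  suffices H : ∀ (k : ℕ) (y : Tm Y.L), y.lv.Nodup → y.lv.length = k → II Y y from H _ y hy rfl
  intro k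
  induction k using Nat.strong_induction_on with
  | _ k ih =>
  intro y0 hy0 hyk K Qf hQf
  have hk : ∀ y : Tm Y.L, y.lv.Nodup → y.lv.length < k → II Y y :=
    fun y hy hlt => ih _ hlt y hy rfl
  by_contra hnef
  obtain ⟨Qlc, hQlc, hlc⟩ := lc_le_all hY y0 hy0 K
  obtain ⟨Q0, hQ0s, hQ0⟩ := open_basis hY (hQf.inter hQlc)
  have hne0 : ¬ ∀ᶠ j in (UF : Filter ℕ), Y.Le Q0 (K : Set Y.P) y0 (Y.t j) := by
    intro h
    apply hnef
    filter_upwards [h] with j hj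
    obtain ⟨e, he⟩ := hj
    exact (LeW.mono he (fun l x hx => (hQ0s l hx).1) subset_rfl).le
  -- colours
  have : Finite {d // d ∈ y0.lv} := (List.finite_toSet y0.lv).to_subtype
  let Γ := Set {d // d ∈ y0.lv}
  have : Finite Γ := inferInstanceAs (Finite (Set {d // d ∈ y0.lv}))
  let π : Y.L → Γ := fun B => {d | PLe Y Q0 d.1 B}
  obtain ⟨q, em, c, rest, Ω₀, A, hΩ₀, g1, g2, g3, g4, g5⟩ := treeLemma Y.L Γ π UF Y.t
  have h : TD Y π q em c rest Ω₀ A := ⟨hΩ₀, g1, g2, g3, g4, g5⟩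
  have hem : ∀ᶠ m in (UF : Filter ℕ), ∀ i < q, em m i ∈ (Y.t m).lv := by
    filter_upwards [h.mem] with m hm i hi
    exact h.em_mem hm hi
  obtain ⟨y, e0, hy, hylen, hyII, he0, he0i, hgood⟩ := exists_min hY em q hem y0 hy0 K Q0 hQ0 hne0
  rw [hyk] at hylen
  -- the image of e0
  have he0s : ∀ l ∈ y.lv, ∃ d ∈ y0.lv, (e0 d).1 = l := by
    have hc : (y0.lv.toFinset).image (fun l => (e0 l).1) = y.lv.toFinset := by
      refine Finset.eq_of_subset_of_card_le ?_ ?_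
      · intro m hm
        obtain ⟨l, hl, rfl⟩ := Finset.mem_image.1 hm
        exact List.mem_toFinset.2 (he0.2.1 l (List.mem_toFinset.1 hl))
      · rw [Finset.card_image_of_injOn, List.toFinset_card_of_nodup hy,
          List.toFinset_card_of_nodup hy0, hylen, hyk]
        intro a ha b hb hab
        exact he0i (by simpa using ha) (by simpa using hb) hab
    intro l hl
    have : l ∈ (y0.lv.toFinset).image (fun l => (e0 l).1) := by
      rw [hc]; exact List.mem_toFinset.2 hl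
    obtain ⟨d, hd, hd'⟩ := Finset.mem_image.1 this
    exact ⟨d, List.mem_toFinset.1 hd, hd'⟩
  -- the good places
  set G : Set ℕ := {l | Good Y em l} with hG
  have hbadQ : ∀ (d : Y.L) (l : ℕ), ∃ Q : (l : Y.L) → Set (Mv Y.sz l), Fine Y Q ∧
      (d ∈ y.lv → l < q → l ∉ G → ∀ᶠ j in (UF : Filter ℕ), ¬ PLe Y Q d (em j l)) := by
    intro d l
    by_cases hd : d ∈ y.lv ∧ l < q ∧ l ∉ G
    · have h1 : ¬ Loc Y em d l := fun h2 => hd.2.2 (hgood d hd.1 l hd.2.1 h2)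
      unfold Loc at h1
      push Not at h1
      obtain ⟨Q, hQ, hQ'⟩ := h1
      exact ⟨Q, hQ, fun _ _ _ => hQ'⟩
    · exact ⟨fun _ => univ, fun _ => univ_mem, fun h1 h2 h3 => absurd ⟨h1, h2, h3⟩ hd⟩
  choose QQ hQQ hQQ' using hbadQ
  let Sdl : Set (Y.L × ℕ) := {l | l ∈ y.lv} ×ˢ {l | l < q}
  have hSdl : Sdl.Finite := (List.finite_toSet y.lv).prod (Set.finite_lt_nat q)
  have hQ2 : Fine Y (fun l => ⋂ p ∈ Sdl, QQ p.1 p.2 l) := Fine.iInter Sdl hSdl fun p _ => hQQ p.1 p.2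
  set Q2 : (l : Y.L) → Set (Mv Y.sz l) := fun l => ⋂ p ∈ Sdl, QQ p.1 p.2 l with hQ2def
  -- the indices
  let Ω : Set ℕ := {j | j ∈ Ω₀ ∧ (∀ l ∈ {l | l < q}, l ∉ G → ∀ d ∈ {d | d ∈ y.lv}, ¬ PLe Y Q2 d (em j l)) ∧
    (∀ l ∈ {l | l < q}, l ∈ G → Loc Y em (em j l) l)}
  have hΩu : ∀ᶠ j in (UF : Filter ℕ), j ∈ Ω := by
    refine h.mem.and (Filter.Eventually.and ?_ ?_)
    · rw [Filter.eventually_all_finite (Set.finite_lt_nat q)]
      intro l hl
      by_cases hlG : l ∈ G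
      · exact Filter.Eventually.of_forall fun j hj => absurd hlG hj
      · have : ∀ᶠ j in (UF : Filter ℕ), ∀ d ∈ {d | d ∈ y.lv}, ¬ PLe Y Q2 d (em j l) := by
          rw [Filter.eventually_all_finite (List.finite_toSet y.lv)]
          intro d hd
          filter_upwards [hQQ' d l hd hl hlG] with j hj hp
          refine hj (hp.mono' ?_)
          exact Set.biInter_subset_of_mem (show (d, l) ∈ Sdl from ⟨hd, hl⟩)
        filter_upwards [this] with j hj _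
        exact hj
    · rw [Filter.eventually_all_finite (Set.finite_lt_nat q)]
      intro l hl
      by_cases hlG : l ∈ G
      · have h1 : Good Y em l := hlG
        filter_upwards [h1] with j hj _
        exact hj
      · exact Filter.Eventually.of_forall fun j hj => absurd hj hlG
  have hΩ : Ω ⊆ Ω₀ := fun j hj => hj.1
  have hfull := nnFull I ar Y hY Γ π q em c rest Ω₀ A h G Ω hΩu hΩ
    (fun j hj l hl hlG => hj.2.2 l hl hlG)
  -- composition
  obtain ⟨Q', hQ', hcomp⟩ := LeW.comp hQ0 he0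
  obtain ⟨Q3, hQ3s, hQ3⟩ := open_basis hY (hQ2.inter hQ')
  have hne3 : ¬ ∀ᶠ j in (UF : Filter ℕ), Y.Le Q3 (K : Set Y.P) y (Y.t j) := by
    intro h3
    apply hne0
    filter_upwards [h3] with j hj
    obtain ⟨e, he⟩ := hj
    exact (hcomp (K : Set Y.P) (Y.t j) e subset_rfl
      (LeW.mono he (fun l x hx => (hQ3s l hx).2) subset_rfl)).le
  have hrec := full_rec hY hfull y hy K Q3 hQ3.fine
  rw [uf2_iff] at hrec
  obtain ⟨n, hJ, hn⟩ := ((JL_ne_nil hΩu).and hrec).exists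
  obtain ⟨m, hmΩ, hm, -, e, he⟩ := (h.mem.and hn).exists
  obtain ⟨hei, z, hzN, hzl, hznd, hzlen, -, hez⟩ := lemmaJ hY hk hy hylen hQ3 hne3 hm he
  have hJΩ : ∀ j ∈ JL Ω n, j ∈ Ω₀ := fun j hj => hΩ (mem_JL.1 hj).2
  obtain ⟨a, ha, rfl, haG⟩ := NN_pull hJ hzN (by
    intro l hl hlG j hj hjz
    rw [h.mem_names hJ hJΩ] at hl
    rcases hl with ⟨l', hl', hll⟩ | ⟨j', _, b, _, hb⟩
    · simp only [Sum.inl.injEq] at hll
      subst hll
      obtain ⟨d, hd, hd'⟩ := (hzl _).1 hjz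
      refine (mem_JL.1 hj).2.2.1 l hl' hlG d hd ?_
      rw [← hd']
      exact ⟨(e d).2, (hQ3s d (hez.1 d hd)).1⟩
    · simp at hb)
  -- the composite move
  have he1 : LeW Y Q0 (K : Set Y.P) y0 (a.map (thN em m)) (cmp Y e0 e) :=
    hcomp (K : Set Y.P) _ e subset_rfl (hez.mono (fun l x hx => (hQ3s l hx).2) subset_rfl)
  have he1i : Set.InjOn (fun l => (cmp Y e0 e l).1) {l | l ∈ y0.lv} := by
    intro d hd d' hd' hdd
    exact he0i hd hd' (hei (he0.2.1 d hd) (he0.2.1 d' hd') hdd)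
  have he1s : ∀ x ∈ a.lv, ∃ d ∈ y0.lv, (cmp Y e0 e d).1 = thN em m x := by
    intro x hx
    have h1 : thN em m x ∈ (a.map (thN em m)).lv := by
      rw [Tm.lv_map]; exact List.mem_map_of_mem hx
    obtain ⟨l, hl, hl'⟩ := (hzl _).1 h1
    obtain ⟨d, hd, hd'⟩ := he0s l hl
    refine ⟨d, hd, ?_⟩
    subst hd'
    exact hl'
  -- the main terms
  apply hne0
  filter_upwards [h.into (JL Ω n) hJ hJΩ] with m' hm'
  have hand : a.lv.Nodup := (sub_lv ha).nodup (h.names_nodup hY hJ hJΩ (JL_nodup Ω n))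
  have hta : Tm.TEmb (NmCol π c) a (Y.t m') :=
    ((Tm.sub_iff.1 ha).trans hm').mono' (by
      rintro x b ⟨x', rfl, hx'⟩
      exact hx')
  obtain ⟨f, hf, hf'⟩ := hta.exists_map hand
  refine transfer hY (fun l x hx => (hQ0s l hx).2) hlc a (thN em m) f hznd he1 he1i he1s ?_
    (hY.nodup m') (Tm.sub_iff.2 hf')
  intro x hx d hd hp
  have hcol : π (thN em m x) = π (f x) := by
    have h1 := hf x hx
    have h2 := (sub_lv ha).subset hx
    rw [h.mem_names hJ hJΩ] at h2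
    rcases h2 with ⟨l, hl, rfl⟩ | ⟨j, hj, b, hb, rfl⟩
    · have h3 : c l = π (f (Sum.inl l)) := h1
      rw [← h3]
      exact h.col m hmΩ l hl
    · exact h1
  have h3 : (⟨d, hd⟩ : {d // d ∈ y0.lv}) ∈ π (thN em m x) := hp
  rw [hcol] at h3
  exact h3

/-- **THEOREM A** -/
theorem thmA : ThmA := by
  intro I ar Y hY y hy K Q hQ
  filter_upwards [pins hY K, allII hY y hy K Q hQ] with j h1 h2
  exact ⟨h1, h2⟩

end Pool.Agent.Lib.MP_4fb322_lc_e
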